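import Pool.Agent.helper4.EQW.L.Phi
import Pool.Agent.helper4.EQW.Gam

/-!
# EQW-L4: `γ` in terms of `φ`
-/

namespace Pool.Agent.helper4.EQW

open Complex
open Pool.Agent.helper31.EQ.W (c2 gl gs nxt wn FW)

/-- `t(w) = ((w-1)/(w+1))²` -/
noncomputable def tt (w : ℂ) : ℂ := ((w - 1) / (w + 1)) ^ 2

variable {e κ a : ℝ} {w : ℂ}

private theorem ne_add_one (hw : 0 < w.re) : w + 1 ≠ 0 := by
  intro h
  have h1 := congrArg Complex.re h
  rw [Complex.add_re, Complex.one_re, Complex.zero_re] at h1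
  linarith

private theorem norm_rr_lt (hw : 0 < w.re) : ‖(w - 1) / (w + 1)‖ < 1 := by
  have h0 : 0 < ‖w + 1‖ := norm_pos_iff.2 (ne_add_one hw)
  rw [norm_div, div_lt_one h0]
  apply lt_of_pow_lt_pow_left₀ 2 (norm_nonneg _)
  rw [← Complex.normSq_eq_norm_sq, ← Complex.normSq_eq_norm_sq, Complex.normSq_apply,
    Complex.normSq_apply]
  rw [Complex.sub_re, Complex.sub_im, Complex.add_re, Complex.add_im, Complex.one_re, Complex.one_im]
  nlinarith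

/-- `‖w - 1‖ < ‖w + 1‖` if `Re w > 0`. -/
theorem norm_tt_lt (hw : 0 < w.re) : ‖tt w‖ < 1 := by
  unfold tt
  rw [norm_pow]
  exact pow_lt_one₀ (norm_nonneg _) (norm_rr_lt hw) two_ne_zero

private theorem mcp {x y : ℂ} (hx : x ≠ 0) (hy : y ≠ 0) (h : |arg x| + |arg y| < Real.pi) (c : ℂ) :
    (x * y) ^ c = x ^ c * y ^ c := by
  have h1 : -Real.pi < arg x + arg y := by
    have h2 := neg_abs_le (arg x)
    have h3 := neg_abs_le (arg y)
    linarith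
  have h2 : arg x + arg y ≤ Real.pi := by
    have h2 := le_abs_self (arg x)
    have h3 := le_abs_self (arg y)
    linarith
  have h3 : Complex.log (x * y) = Complex.log x + Complex.log y :=
    Complex.log_mul hx hy ⟨h1, h2⟩
  rw [Complex.cpow_def_of_ne_zero (mul_ne_zero hx hy), Complex.cpow_def_of_ne_zero hx,
    Complex.cpow_def_of_ne_zero hy, h3, add_mul, Complex.exp_add]

private theorem re_pos_arg {x : ℂ} (hx : 0 < x.re) : |arg x| < Real.pi / 2 :=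
  Complex.abs_arg_lt_pi_div_two_iff.2 (Or.inl hx)

private theorem re_of_disc (ha : 0 < a) (hw : ‖w - (a : ℂ)‖ ≤ a / 2) : 0 < w.re := by
  have := (disc_re hw).1
  linarith

private theorem arg_two_div (ha : 0 < a) (hw : ‖w - (a : ℂ)‖ ≤ a / 2) :
    |arg (2 / (w + 1))| ≤ Real.pi / 6 := by
  have h1 : |arg (w + 1)| ≤ Real.pi / 6 := by
    refine disc_arg (a := a + 1) (by linarith) ?_
    have h2 : w + 1 - ((a + 1 : ℝ) : ℂ) = w - (a : ℂ) := by push_cast; ring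
    rw [h2]
    linarith
  have h2 : arg (2 / (w + 1)) = arg ((w + 1)⁻¹) := by
    have h3 : (2 : ℂ) / (w + 1) = ((2 : ℝ) : ℂ) * (w + 1)⁻¹ := by
      push_cast
      rw [div_eq_mul_inv]
    rw [h3, Complex.arg_real_mul _ (by norm_num)]
  have hpi := Real.pi_pos
  have h4 : arg (w + 1) ≠ Real.pi := by
    intro h
    rw [h, abs_of_pos hpi] at h1
    linarith
  rw [h2, Complex.arg_inv, if_neg h4, abs_neg]
  exact h1

private theorem f0_re (he : 0 ≤ e) (he2 : e ≤ 2) (ha : 0 < a) (hw : ‖w - (a : ℂ)‖ ≤ a / 2) :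
    0 < (f0 e w).re := by
  have h1 := disc_pow_re he he2 ha hw
  have h2 : 0 ≤ ‖w‖ ^ e := Real.rpow_nonneg (norm_nonneg _) _
  have h5 : (f0 e w).re = (1 + (w ^ (e : ℂ)).re) / 2 := by
    unfold f0
    have : (1 + w ^ (e : ℂ)) / 2 = (1 + w ^ (e : ℂ)) / ((2 : ℝ) : ℂ) := by push_cast; rfl
    rw [this, Complex.div_ofReal_re, Complex.add_re, Complex.one_re]
  rw [h5]
  linarith

private theorem PP_eq (he : 1 ≤ e) (he2 : e ≤ 2) (ha : 0 < a) (hw : ‖w - (a : ℂ)‖ ≤ a / 2) :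
    PP e (tt w) = (2 / (w + 1)) ^ (e : ℂ) * f0 e w := by
  have hre := re_of_disc ha hw
  have hne := ne_add_one hre
  have h1 : 1 + (w - 1) / (w + 1) = w * (2 / (w + 1)) := by
    field_simp
    ring
  have h2 : 1 - (w - 1) / (w + 1) = 2 / (w + 1) := by
    field_simp
    ring
  have h3 : (w * (2 / (w + 1))) ^ (e : ℂ) = w ^ (e : ℂ) * (2 / (w + 1)) ^ (e : ℂ) := by
    apply mcp (disc_ne ha hw) (div_ne_zero two_ne_zero hne)
    have h4 := arg_two_div ha hw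
    have h5 := disc_arg ha hw
    have hpi := Real.pi_pos
    linarith
  unfold tt
  rw [PP_sq he he2 (norm_rr_lt hre), h1, h2, h3]
  unfold f0
  ring

private theorem pow_arg {s : ℂ} (he : 1 ≤ e) (he2 : e ≤ 2) (h : |arg s| ≤ Real.pi / 6) :
    |(Complex.log s * (e : ℂ)).im| ≤ Real.pi / 3 := by
  have h1 : (Complex.log s * (e : ℂ)).im = arg s * e := by
    rw [Complex.mul_im, Complex.ofReal_re, Complex.ofReal_im, mul_zero, zero_add, Complex.log_im]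
  rw [h1, abs_mul, abs_of_nonneg (by linarith : 0 ≤ e)]
  have h2 : |arg s| * e ≤ Real.pi / 6 * 2 :=
    mul_le_mul h he2 (by linarith) (by linarith [Real.pi_pos])
  linarith

private theorem phi_eq (he : 1 ≤ e) (he2 : e ≤ 2) (ha : 0 < a) (hw : ‖w - (a : ℂ)‖ ≤ a / 2) :
    phi e (tt w) = (2 / (w + 1)) ^ 2 * f0 e w ^ ((2 / e : ℝ) : ℂ) := by
  have hre := re_of_disc ha hw
  have hne := ne_add_one hre
  have hs : (2 : ℂ) / (w + 1) ≠ 0 := div_ne_zero two_ne_zero hne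
  have hf := f0_re (by linarith : 0 ≤ e) he2 ha hw
  have hf0 : f0 e w ≠ 0 := by
    intro h
    rw [h, Complex.zero_re] at hf
    exact lt_irrefl _ hf
  have hargs := arg_two_div ha hw
  have hpi := Real.pi_pos
  have him := pow_arg he he2 hargs
  have habs := abs_le.1 him
  have hpow : (2 / (w + 1)) ^ (e : ℂ) ≠ 0 := by
    rw [Complex.cpow_def_of_ne_zero hs]
    exact exp_ne_zero _
  have harg : |arg ((2 / (w + 1)) ^ (e : ℂ))| ≤ Real.pi / 3 := by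
    have h1 : arg ((2 / (w + 1)) ^ (e : ℂ)) = (Complex.log (2 / (w + 1)) * (e : ℂ)).im := by
      rw [← Complex.log_im, Complex.cpow_def_of_ne_zero hs,
        Complex.log_exp (by linarith [habs.1]) (by linarith [habs.2])]
    rw [h1]
    exact him
  unfold phi
  rw [PP_eq he he2 ha hw, mcp hpow hf0 (by linarith [re_pos_arg hf])]
  congr 1
  rw [← Complex.cpow_mul _ (by linarith [habs.1]) (by linarith [habs.2])]
  have he0 : (e : ℂ) ≠ 0 := by
    have : e ≠ 0 := by linarith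
    exact_mod_cast this
  have h2 : (e : ℂ) * ((2 / e : ℝ) : ℂ) = 2 := by
    push_cast
    field_simp
  rw [h2]
  exact Complex.cpow_two _

/-- Let `r = (w-1)/(w+1)`, `‖r‖ < 1`, `1 + r = w * (2/(w+1))`, `1 - r = 2/(w+1)`, so
`P(t) = (2/(w+1))^e (1 + w^e)/2` (`PP_sq`; `|arg w|, |arg (2/(w+1))| < π/2`).  On the disc
`|arg w| ≤ π/6` (`disc_arg`), hence `|arg (w+1)| ≤ π/6`, `|e arg(2/(w+1))| ≤ π/3`, `Re (1 + w^e) > 0`, so the
arguments add up (`< π`) and `P(t)^(2/e) = (2/(w+1))² ((1+w^e)/2)^(2/e)`. -/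
theorem f0_pow (he : 1 ≤ e) (he2 : e ≤ 2) (ha : 0 < a) (ha1 : a ≤ 1) (hw : ‖w - (a : ℂ)‖ ≤ a / 2) :
    f0 e w ^ ((2 / e : ℝ) : ℂ) = phi e (tt w) * ((1 + w) / 2) ^ 2 := by
  have hne := ne_add_one (re_of_disc ha hw)
  have hne' : (1 : ℂ) + w ≠ 0 := by
    rw [add_comm]
    exact hne
  rw [phi_eq he he2 ha hw, add_comm w 1]
  field_simp

private theorem f0_pow_ne (he : 1 ≤ e) (he2 : e ≤ 2) (ha : 0 < a) (hw : ‖w - (a : ℂ)‖ ≤ a / 2) :
    f0 e w ^ ((2 / e : ℝ) : ℂ) ≠ 0 := by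
  have hs := f0_slit (by linarith : 0 ≤ e) he2 ha hw
  rw [Complex.cpow_def_of_ne_zero (slitPlane_ne_zero hs)]
  exact exp_ne_zero _

theorem phi_ne (he : 1 ≤ e) (he2 : e ≤ 2) (ha : 0 < a) (ha1 : a ≤ 1) (hw : ‖w - (a : ℂ)‖ ≤ a / 2) :
    phi e (tt w) ≠ 0 := by
  rw [phi_eq he he2 ha hw]
  exact mul_ne_zero (pow_ne_zero _ (div_ne_zero two_ne_zero (ne_add_one (re_of_disc ha hw))))
    (f0_pow_ne he he2 ha hw)

theorem h0_eq (he : 1 ≤ e) (he2 : e ≤ 2) (ha : 0 < a) (ha1 : a ≤ 1) (hw : ‖w - (a : ℂ)‖ ≤ a / 2) :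
    h0 e w = 4 / ((1 + w) ^ 2 * phi e (tt w)) := by
  have hne := ne_add_one (re_of_disc ha hw)
  have hne' : (1 : ℂ) + w ≠ 0 := by
    rw [add_comm]
    exact hne
  have hp := phi_ne he he2 ha ha1 hw
  unfold h0
  rw [Complex.cpow_neg, f0_pow he he2 ha ha1 hw]
  field_simp
  norm_num

theorem gs_eq (he : 1 ≤ e) (he2 : e ≤ 2) (ha : 0 < a) (ha1 : a ≤ 1) (hw : ‖w - (a : ℂ)‖ ≤ a / 2) :
    gs e w = 4 * w ^ 2 / ((1 + w) ^ 2 * phi e (tt w)) := by
  have h1 : gs e w = w ^ 2 * h0 e w := rfl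
  rw [h1, h0_eq he he2 ha ha1 hw]
  ring

private theorem exp_facts (hκ : 0 < κ) : 0 < Real.exp (-κ) ∧ Real.exp (-κ) < 1 := by
  refine ⟨Real.exp_pos _, ?_⟩
  rw [Real.exp_lt_one_iff]
  linarith

private theorem self_disc (ha : 0 < a) : ‖(a : ℂ) - (a : ℂ)‖ ≤ a / 2 := by
  rw [sub_self, norm_zero]
  linarith

/-- `(exp (-κ))^e = exp (-(e κ))` -/
private theorem exp_pow (e κ : ℝ) : Real.exp (-κ) ^ e = Real.exp (-(e * κ)) := by
  rw [← Real.exp_mul]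
  congr 1
  ring

/-- `f0 e a = exp (-(eκ)/2) cosh (eκ/2)` -/
private theorem f0_real (e κ : ℝ) : f0 e ((Real.exp (-κ) : ℝ) : ℂ) =
    ((Real.exp (-(e * κ / 2)) * Real.cosh (e * κ / 2) : ℝ) : ℂ) := by
  unfold f0
  rw [← Complex.ofReal_cpow (Real.exp_pos _).le, exp_pow]
  have h1 : Real.exp (-(e * κ / 2)) * Real.cosh (e * κ / 2) = (1 + Real.exp (-(e * κ))) / 2 := by
    rw [Real.cosh_eq, mul_div_assoc', mul_add, ← Real.exp_add, ← Real.exp_add]
    have h2 : -(e * κ / 2) + e * κ / 2 = 0 := by ring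
    have h3 : -(e * κ / 2) + -(e * κ / 2) = -(e * κ) := by ring
    rw [h2, h3, Real.exp_zero]
  rw [h1]
  push_cast
  ring

private theorem f0_real_pow (he : 0 < e) (κ : ℝ) : f0 e ((Real.exp (-κ) : ℝ) : ℂ) ^ ((2 / e : ℝ) : ℂ) =
    ((Real.exp (-κ) * c2 e κ : ℝ) : ℂ) := by
  rw [f0_real, ← Complex.ofReal_cpow (mul_nonneg (Real.exp_pos _).le (Real.cosh_pos _).le)]
  congr 1
  rw [Real.mul_rpow (Real.exp_pos _).le (Real.cosh_pos _).le, ← Real.exp_mul]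
  have h1 : -(e * κ / 2) * (2 / e) = -κ := by
    field_simp
  rw [h1]
  rfl

private theorem cosh_id (κ : ℝ) :
    (1 + Real.exp (-κ)) ^ 2 = 2 * Real.exp (-κ) * (Real.cosh κ + 1) := by
  have h1 : Real.exp (-κ) * Real.exp κ = 1 := by
    rw [← Real.exp_add, neg_add_cancel, Real.exp_zero]
  rw [Real.cosh_eq]
  linear_combination -h1

/-- `f0 e a ^ (2/e) = a c²` for `a = exp (-κ)` (`1 + a^e = 2 exp (-eκ/2) cosh (eκ/2)`), and
`(1+a)²/(4a) = (C+1)/2`. -/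
theorem phi_kappa (he : 1 ≤ e) (he2 : e ≤ 2) (hκ : 0 < κ) :
    phi e (tt ((Real.exp (-κ) : ℝ) : ℂ)) =
      ((2 * c2 e κ / (Real.cosh κ + 1) : ℝ) : ℂ) := by
  obtain ⟨ha, ha1⟩ := exp_facts hκ
  have h1 := f0_pow he he2 ha ha1.le (self_disc ha)
  rw [f0_real_pow (by linarith) κ] at h1
  have hC : 0 < Real.cosh κ + 1 := by linarith [Real.cosh_pos κ]
  have h2 : ((1 + ((Real.exp (-κ) : ℝ) : ℂ)) / 2) ^ 2 =
      ((Real.exp (-κ) * (Real.cosh κ + 1) / 2 : ℝ) : ℂ) := by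
    have h3 : ((1 + Real.exp (-κ)) / 2) ^ 2 = Real.exp (-κ) * (Real.cosh κ + 1) / 2 := by
      rw [div_pow, cosh_id]
      ring
    rw [← h3]
    push_cast
    ring
  rw [h2] at h1
  have h4 : ((Real.exp (-κ) * (Real.cosh κ + 1) / 2 : ℝ) : ℂ) ≠ 0 := by
    have : Real.exp (-κ) * (Real.cosh κ + 1) / 2 ≠ 0 := by positivity
    exact_mod_cast this
  have h5 : phi e (tt ((Real.exp (-κ) : ℝ) : ℂ)) =
      ((Real.exp (-κ) * c2 e κ : ℝ) : ℂ) / ((Real.exp (-κ) * (Real.cosh κ + 1) / 2 : ℝ) : ℂ) := by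
    rw [h1, mul_div_cancel_right₀ _ h4]
  rw [h5, ← Complex.ofReal_div]
  congr 1
  have h6 : Real.exp (-κ) ≠ 0 := ha.ne'
  have h7 : Real.cosh κ + 1 ≠ 0 := hC.ne'
  field_simp

private theorem tt_deriv (hw : 0 < w.re) :
    HasDerivAt tt (4 * (w - 1) / (w + 1) ^ 3) w := by
  have hne := ne_add_one hw
  have h1 : HasDerivAt (fun w : ℂ => w - 1) 1 w := (hasDerivAt_id w).sub_const 1
  have h2 : HasDerivAt (fun w : ℂ => w + 1) 1 w := (hasDerivAt_id w).add_const 1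
  have h3 := (h1.div h2 hne).pow 2
  refine (h3.congr_deriv ?_)
  simp only [Pi.div_apply]
  have h4 : (2 : ℕ) - 1 = 1 := rfl
  rw [h4, pow_one]
  push_cast
  field_simp
  ring

/-- The derivative of `f0_pow` at `a`. -/
private theorem key_deriv (he : 1 ≤ e) (he2 : e ≤ 2) (ha : 0 < a) (ha1 : a < 1) :
    f0 e (a : ℂ) ^ (((2 / e : ℝ) : ℂ) - 1) * (a : ℂ) ^ ((e : ℂ) - 1) =
      phi1 e (tt (a : ℂ)) * (((a : ℂ) - 1) / ((a : ℂ) + 1)) + phi e (tt (a : ℂ)) * ((1 + (a : ℂ)) / 2) := by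
  have hd := self_disc ha
  have hre : 0 < ((a : ℂ)).re := by
    rw [Complex.ofReal_re]
    exact ha
  have hne := ne_add_one hre
  have he0 : (e : ℂ) ≠ 0 := by
    have : e ≠ 0 := by linarith
    exact_mod_cast this
  have hL : HasDerivAt (fun w => f0 e w ^ ((2 / e : ℝ) : ℂ))
      (((2 / e : ℝ) : ℂ) * f0 e (a : ℂ) ^ (((2 / e : ℝ) : ℂ) - 1) *
        ((e : ℂ) * (a : ℂ) ^ ((e : ℂ) - 1) / 2)) (a : ℂ) :=
    (f0_deriv (e := e) ha hd).cpow_const (f0_slit (by linarith) he2 ha hd)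
  have hphi : HasDerivAt (fun w => phi e (tt w))
      (phi1 e (tt (a : ℂ)) * (4 * ((a : ℂ) - 1) / ((a : ℂ) + 1) ^ 3)) (a : ℂ) :=
    HasDerivAt.comp (a : ℂ) (phi_hasDerivAt he he2 (norm_tt_lt hre)) (tt_deriv hre)
  have h2 : HasDerivAt (fun w : ℂ => ((1 + w) / 2) ^ 2) ((1 + (a : ℂ)) / 2) (a : ℂ) := by
    have h3 : HasDerivAt (fun w : ℂ => (1 + w) / 2) (1 / 2) (a : ℂ) :=
      ((hasDerivAt_id (a : ℂ)).const_add 1).div_const 2
    refine (h3.pow 2).congr_deriv ?_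
    push_cast
    ring
  have hR := hphi.mul h2
  have hev : (fun w => f0 e w ^ ((2 / e : ℝ) : ℂ)) =ᶠ[nhds (a : ℂ)]
      ((fun w => phi e (tt w)) * fun w : ℂ => ((1 + w) / 2) ^ 2) := by
    have hball : Metric.closedBall (a : ℂ) (a / 2) ∈ nhds (a : ℂ) :=
      Metric.closedBall_mem_nhds _ (by linarith)
    filter_upwards [hball] with w hw
    rw [Metric.mem_closedBall, dist_eq_norm] at hw
    rw [Pi.mul_apply]
    exact f0_pow he he2 ha ha1.le hw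
  have hR2 := hR.congr_of_eventuallyEq hev
  have h4 := hL.unique hR2
  have h5 : ((2 / e : ℝ) : ℂ) * f0 e (a : ℂ) ^ (((2 / e : ℝ) : ℂ) - 1) *
        ((e : ℂ) * (a : ℂ) ^ ((e : ℂ) - 1) / 2) =
      f0 e (a : ℂ) ^ (((2 / e : ℝ) : ℂ) - 1) * (a : ℂ) ^ ((e : ℂ) - 1) := by
    push_cast
    field_simp
  rw [← h5, h4]
  have hne' : (1 : ℂ) + (a : ℂ) ≠ 0 := by
    rw [add_comm]
    exact hne
  have h6 : (a : ℂ) + 1 = 1 + (a : ℂ) := add_comm _ _
  rw [h6]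
  congr 1
  field_simp
  ring

/-- Differentiate `f0_pow` at `w = a = exp (-κ)` (both sides are holomorphic near `a`):
`f0^(2/e) a^(e-1)/f0 = φ' (a-1)/(a+1) + φ (1+a)/2`; with `q = 1 - t = 4a/(1+a)²`:
`φ + q φ' = φ (1+a)(1-a^e)/((1-a)(1+a^e))`, `(1-a^e)/(1+a^e) = tanh (eκ/2)`, `(1+a)/(1-a) = (C+1)/S`. -/
theorem nu_kappa (he : 1 ≤ e) (he2 : e ≤ 2) (hκ : 0 < κ) :
    phi e (tt ((Real.exp (-κ) : ℝ) : ℂ)) + (1 - tt ((Real.exp (-κ) : ℝ) : ℂ)) *
      phi1 e (tt ((Real.exp (-κ) : ℝ) : ℂ)) =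
      ((2 * c2 e κ * Real.tanh (e * κ / 2) / Real.sinh κ : ℝ) : ℂ) := by
  obtain ⟨ha, ha1⟩ := exp_facts hκ
  have hkey := key_deriv he he2 ha ha1
  have hpow := f0_pow he he2 ha ha1.le (self_disc ha)
  have hfk := phi_kappa he he2 hκ
  have hexp := exp_pow e κ
  set a := Real.exp (-κ) with hadef
  have hre : 0 < ((a : ℂ)).re := by
    rw [Complex.ofReal_re]
    exact ha
  have hne : (a : ℂ) + 1 ≠ 0 := ne_add_one hre
  have hane : (a : ℂ) ≠ 0 := by exact_mod_cast ha.ne'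
  have h1a : (1 : ℂ) - (a : ℂ) ≠ 0 := by
    have : 1 - a ≠ 0 := by linarith
    exact_mod_cast this
  have hf0 : f0 e (a : ℂ) ≠ 0 :=
    slitPlane_ne_zero (f0_slit (by linarith : 0 ≤ e) he2 ha (self_disc ha))
  rw [Complex.cpow_sub _ _ hf0, Complex.cpow_one, hpow] at hkey
  have hzz := mul_cpow_sub_one (e := e) hane
  set A := (a : ℂ) ^ ((e : ℂ) - 1) with hA
  have hfe : f0 e (a : ℂ) = (1 + (a : ℂ) * A) / 2 := by
    rw [hzz]
    rfl
  have h1A : 1 + (a : ℂ) * A ≠ 0 := by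
    intro h
    rw [hfe, h, zero_div] at hf0
    exact hf0 rfl
  set F := phi e (tt (a : ℂ)) with hF
  set F1 := phi1 e (tt (a : ℂ)) with hF1
  -- solve for `F1`
  have hsol : F1 * (1 - (a : ℂ)) * (2 * (1 + (a : ℂ) * A)) = F * ((a : ℂ) + 1) ^ 2 * (1 - A) := by
    rw [hfe] at hkey
    field_simp at hkey
    linear_combination hkey
  have hq : 1 - tt (a : ℂ) = 4 * (a : ℂ) / ((a : ℂ) + 1) ^ 2 := by
    unfold tt
    field_simp
    ring
  have hsum : F + (1 - tt (a : ℂ)) * F1 =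
      F * (((1 + (a : ℂ)) * (1 - (a : ℂ) * A)) / ((1 - (a : ℂ)) * (1 + (a : ℂ) * A))) := by
    rw [hq]
    have h2 : F1 = F * ((a : ℂ) + 1) ^ 2 * (1 - A) / ((1 - (a : ℂ)) * (2 * (1 + (a : ℂ) * A))) := by
      rw [eq_div_iff (mul_ne_zero h1a (mul_ne_zero two_ne_zero h1A)), ← hsol]
      ring
    rw [h2]
    field_simp
    ring
  rw [hsum, hfk, hzz, ← Complex.ofReal_cpow ha.le, hexp]
  have hS : 0 < Real.sinh κ := Real.sinh_pos_iff.2 hκ
  have hC : 0 < Real.cosh κ + 1 := by linarith [Real.cosh_pos κ]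
  have hT : Real.tanh (e * κ / 2) * (1 + Real.exp (-(e * κ))) = 1 - Real.exp (-(e * κ)) := by
    have hc := Real.cosh_pos (e * κ / 2)
    have h1 : Real.exp (-(e * κ)) = Real.exp (-(e * κ / 2)) * Real.exp (-(e * κ / 2)) := by
      rw [← Real.exp_add]
      congr 1
      ring
    have h2 : Real.exp (-(e * κ / 2)) * Real.exp (e * κ / 2) = 1 := by
      rw [← Real.exp_add, neg_add_cancel, Real.exp_zero]
    have h3 : 1 + Real.exp (-(e * κ)) = 2 * Real.exp (-(e * κ / 2)) * Real.cosh (e * κ / 2) := by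
      rw [h1, Real.cosh_eq]
      linear_combination -h2
    have h4 : 1 - Real.exp (-(e * κ)) = 2 * Real.exp (-(e * κ / 2)) * Real.sinh (e * κ / 2) := by
      rw [h1, Real.sinh_eq]
      linear_combination -h2
    rw [h3, h4, Real.tanh_eq_sinh_div_cosh]
    field_simp
  have hR : (1 + a) * Real.sinh κ = (1 - a) * (Real.cosh κ + 1) := by
    have h2 : a * Real.exp κ = 1 := by
      rw [hadef, ← Real.exp_add, neg_add_cancel, Real.exp_zero]
    rw [Real.sinh_eq, Real.cosh_eq, ← hadef]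
    linear_combination h2
  have hE : 0 < 1 + Real.exp (-(e * κ)) := by linarith [Real.exp_pos (-(e * κ))]
  have h1a' : (1 : ℝ) - a ≠ 0 := by linarith
  have hreal : 2 * c2 e κ / (Real.cosh κ + 1) * (((1 + a) * (1 - Real.exp (-(e * κ)))) /
      ((1 - a) * (1 + Real.exp (-(e * κ))))) = 2 * c2 e κ * Real.tanh (e * κ / 2) / Real.sinh κ := by
    rw [← hT, div_mul_div_comm, div_eq_div_iff (by positivity) hS.ne']
    linear_combination (2 * c2 e κ * Real.tanh (e * κ / 2) * (1 + Real.exp (-(e * κ)))) * hR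
  rw [← hreal]
  push_cast
  ring

end Pool.Agent.helper4.EQW
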