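import Pool.Agent.helper4.EQW.L.Dd
import Pool.Agent.helper4.EQW.L.Ident
import Pool.Agent.helper4.EQW.Low

/-!
# EQW-L5: the main estimate of `Λ = c² γ(W) - c² γ(Y) - 2 (C - Y)`, `W = 2C - Y`
-/

namespace Pool.Agent.helper4.EQW

open Complex
open Pool.Agent.helper31.EQ.W (c2 gl gs nxt wn FW)

variable {e κ : ℝ}

private theorem exp_sq (κ : ℝ) :
    Real.exp (-κ) ^ 2 - 2 * Real.cosh κ * Real.exp (-κ) + 1 = 0 := by
  have h1 : Real.exp (-κ) * Real.exp κ = 1 := by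
    rw [← Real.exp_add, neg_add_cancel, Real.exp_zero]
  rw [Real.cosh_eq]
  linear_combination -h1

private theorem tt_exp (κ : ℝ) : tt ((Real.exp (-κ) : ℝ) : ℂ) =
    (((Real.cosh κ - 1) / (Real.cosh κ + 1) : ℝ) : ℂ) := by
  have ha : 0 < Real.exp (-κ) := Real.exp_pos _
  have hC : 0 < Real.cosh κ + 1 := by linarith [Real.cosh_pos κ]
  have h1 : ((Real.exp (-κ) - 1) / (Real.exp (-κ) + 1)) ^ 2 =
      (Real.cosh κ - 1) / (Real.cosh κ + 1) := by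
    have h2 : Real.exp (-κ) + 1 ≠ 0 := by linarith
    rw [div_pow, div_eq_div_iff (pow_ne_zero _ h2) hC.ne']
    linear_combination 2 * exp_sq κ
  rw [← h1]
  unfold tt
  push_cast
  ring

private theorem nu_eq (e κ : ℝ) : 2 * c2 e κ * Real.tanh (e * κ / 2) / Real.sinh κ =
    2 * c2 e κ / gg e κ := by
  unfold gg
  rw [div_div_eq_mul_div]

private theorem norm_lt_of {c : ℝ} (hc : 0 ≤ c) (hc1 : c < 1) {t : ℂ}
    (ht : ‖t - (c : ℂ)‖ ≤ (1 - c) / 7) : ‖t‖ < 1 := by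
  have h2 := norm_add_le (t - (c : ℂ)) (c : ℂ)
  rw [sub_add_cancel, Complex.norm_real, Real.norm_of_nonneg hc] at h2
  linarith

/-- `g = gg e κ`, `ν = 2 c2 / g`, `F = 2 c2 / (C+1)`, `c = tt (exp (-κ)) = (C-1)/(C+1)`, `q = 1 - c = 2/(C+1)`:
`DdHyp (phi e) (phi1 e) (phi2 e) c q ν F`.  `d1, d2, b2` from L/Phi (`‖t‖ ≤ c + q/7 < 1`), `hF` is
`phi_kappa`, `hν` is `nu_kappa`.  `F ≤ ν` as `g ≤ C+1` (`gg_facts`); `1 ≤ ν`: `g ≤ C+1 ≤ 2 c2` (`c2_ge`);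
`F ≤ ν²`: `g² ≤ (C+1) * 2 c2`. -/
theorem ddHyp (he : 1 ≤ e) (he2 : e ≤ 2) (hκ : 0 < κ) :
    DdHyp (phi e) (phi1 e) (phi2 e) ((Real.cosh κ - 1) / (Real.cosh κ + 1)) (2 / (Real.cosh κ + 1))
      (2 * c2 e κ / gg e κ) (2 * c2 e κ / (Real.cosh κ + 1)) := by
  have hC : 1 ≤ Real.cosh κ := Real.one_le_cosh κ
  have hC1 : 0 < Real.cosh κ + 1 := by linarith
  obtain ⟨hg1, hg2, -⟩ := gg_facts he he2 hκ
  have hg : 0 < gg e κ := by linarith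
  have hc2 := c2_ge he κ
  have hc2p := c2_pos e κ
  have hq : 2 / (Real.cosh κ + 1) = 1 - (Real.cosh κ - 1) / (Real.cosh κ + 1) := by
    field_simp
    ring
  have hq0 : 0 < 2 / (Real.cosh κ + 1) := by positivity
  have hc0 : 0 ≤ (Real.cosh κ - 1) / (Real.cosh κ + 1) := div_nonneg (by linarith) hC1.le
  have hc1 : (Real.cosh κ - 1) / (Real.cosh κ + 1) < 1 := by linarith
  have hlt : ∀ t : ℂ, ‖t - (((Real.cosh κ - 1) / (Real.cosh κ + 1) : ℝ) : ℂ)‖ ≤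
      2 / (Real.cosh κ + 1) / 7 → ‖t‖ < 1 := by
    intro t ht
    rw [hq] at ht
    exact norm_lt_of hc0 hc1 ht
  refine ⟨hc0, hq, hq0, fun t ht => phi_hasDerivAt he he2 (hlt t ht),
    fun t ht => phi1_hasDerivAt he he2 (hlt t ht), fun t ht => ?_, ?_, ?_, ?_, ?_, ?_, ?_⟩
  · rw [hq] at ht ⊢
    exact phi2_bound he he2 hc0 hc1 ht
  · rw [← tt_exp]
    exact phi_kappa he he2 hκ
  · rw [← nu_eq, ← nu_kappa he he2 hκ, tt_exp]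
    congr 2
    rw [hq]
    push_cast
    ring
  · positivity
  · exact div_le_div_of_nonneg_left (by positivity) hg hg2
  · rw [div_pow, div_le_div_iff₀ hC1 (by positivity)]
    have h1 : gg e κ ^ 2 ≤ (Real.cosh κ + 1) ^ 2 := pow_le_pow_left₀ hg.le hg2 2
    have h2 : (Real.cosh κ + 1) ^ 2 ≤ 2 * c2 e κ * (Real.cosh κ + 1) := by nlinarith
    have h3 := mul_le_mul_of_nonneg_left (h1.trans h2) (by positivity : 0 ≤ 2 * c2 e κ)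
    nlinarith
  · rw [le_div_iff₀ hg]
    linarith

/-- `t(w) - c = q v2(w)/(1+w)²` (`w ≠ -1`). -/
theorem tt_sub {w : ℂ} (hw : 1 + w ≠ 0) :
    tt w - (((Real.cosh κ - 1) / (Real.cosh κ + 1) : ℝ) : ℂ) =
      ((2 / (Real.cosh κ + 1) : ℝ) : ℂ) * (v2 κ w / (1 + w) ^ 2) := by
  have hC : (Real.cosh κ : ℂ) + 1 ≠ 0 := by
    have h1 : Real.cosh κ + 1 ≠ 0 := by linarith [Real.cosh_pos κ]
    exact_mod_cast h1
  have hw' : w + 1 ≠ 0 := by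
    rw [add_comm]
    exact hw
  unfold tt v2
  generalize Real.cosh κ = C at *
  push_cast
  field_simp
  ring

private theorem one_sub_tt {w : ℂ} (hw : 1 + w ≠ 0) : 1 - tt w = 4 * w / (1 + w) ^ 2 := by
  have hw' : w + 1 ≠ 0 := by
    rw [add_comm]
    exact hw
  unfold tt
  field_simp
  ring

private theorem tt_inv {w : ℂ} (hw0 : w ≠ 0) (hw : 1 + w ≠ 0) : tt (1 / w) = tt w := by
  have hw' : w + 1 ≠ 0 := by
    rw [add_comm]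
    exact hw
  have h1 : 1 / w + 1 = (1 + w) / w := by
    field_simp
  have h2 : 1 / w - 1 = -((w - 1) / w) := by
    field_simp
    ring
  unfold tt
  rw [h1, h2, add_comm w 1]
  field_simp

/-- step 2 -/
private theorem piece {φ : ℂ → ℂ} {c q F c2' : ℝ} {v w x : ℂ} (hw : 1 + w ≠ 0) (hq : q ≠ 0)
    (hx1 : 1 - x = 4 * w / (1 + w) ^ 2) (hxc : x - (c : ℂ) = (q : ℂ) * (v / (1 + w) ^ 2))
    (hqc : q = 1 - c) (hF : φ (c : ℂ) = (F : ℂ)) (hF2 : c2' * q = F) (hφ : φ x ≠ 0) :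
    (c2' : ℂ) * (4 * w ^ 2 / ((1 + w) ^ 2 * φ x)) - w =
      -(v / 4) * ((1 - x) * (φ (c : ℂ) + (q : ℂ) * dslope φ (c : ℂ) x) / φ x) := by
  have hds : (x - (c : ℂ)) * dslope φ (c : ℂ) x = φ x - φ (c : ℂ) := by
    have := sub_smul_dslope φ (c : ℂ) x
    rwa [smul_eq_mul] at this
  have hqC : (q : ℂ) ≠ 0 := by exact_mod_cast hq
  have hF2C : (c2' : ℂ) * (q : ℂ) = φ (c : ℂ) := by
    rw [hF, ← hF2]
    push_cast
    ring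
  have hqcC : (q : ℂ) = 1 - (c : ℂ) := by
    rw [hqc]
    push_cast
    ring
  have hw2 : (1 + w) ^ 2 ≠ 0 := pow_ne_zero _ hw
  -- `v = (x - c) (1+w)^2 / q`
  have hv : v * (q : ℂ) = (x - (c : ℂ)) * (1 + w) ^ 2 := by
    rw [hxc]
    field_simp
  have hx2 : (1 - x) * (1 + w) ^ 2 = 4 * w := by
    rw [hx1]
    field_simp
  set D := dslope φ (c : ℂ) x with hD
  have key : (c2' : ℂ) * (1 - x) - φ x = -((x - (c : ℂ)) * ((c2' : ℂ) + D)) := by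
    have h1 : φ x = (x - (c : ℂ)) * D + φ (c : ℂ) := by
      rw [hds]
      ring
    rw [h1, ← hF2C, hqcC]
    ring
  have e1 : (c2' : ℂ) * (4 * w ^ 2 / ((1 + w) ^ 2 * φ x)) - w =
      w * ((c2' : ℂ) * (1 - x) - φ x) / φ x := by
    have h2 : (c2' : ℂ) * (4 * w ^ 2 / ((1 + w) ^ 2 * φ x)) =
        (c2' : ℂ) * w * (1 - x) / φ x := by
      rw [hx1]
      field_simp
    rw [h2]
    field_simp
  rw [e1, key, ← hF2C]
  have e2 : (c2' : ℂ) * (q : ℂ) + (q : ℂ) * D = (q : ℂ) * ((c2' : ℂ) + D) := by ring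
  rw [e2]
  have e3 : -(v / 4) * ((1 - x) * ((q : ℂ) * ((c2' : ℂ) + D)) / φ x) =
      -((v * (q : ℂ)) / 4) * ((1 - x) * ((c2' : ℂ) + D) / φ x) := by ring
  rw [e3, hv]
  have e4 : -((x - (c : ℂ)) * (1 + w) ^ 2 / 4) * ((1 - x) * ((c2' : ℂ) + D) / φ x) =
      -(((1 - x) * (1 + w) ^ 2) / 4) * ((x - (c : ℂ)) * ((c2' : ℂ) + D) / φ x) := by ring
  rw [e4, hx2]
  ring

/-- step 4 -/
private theorem lin_piece {φ φ1 φ2 : ℂ → ℂ} {c q ν F g C : ℝ} {v w x : ℂ}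
    (h : DdHyp φ φ1 φ2 c q ν F) (hw : 1 + w ≠ 0)
    (hxc : x - (c : ℂ) = (q : ℂ) * (v / (1 + w) ^ 2)) (hx : ‖x - (c : ℂ)‖ ≤ q / 7)
    (hvw : (1 + w) ^ 2 = 2 * ((C : ℂ) + 1) * w + v) (hFC : F * (C + 1) = ν * g) :
    ‖(1 + w) ^ 2 * φ x - (ν : ℂ) * (2 * (g : ℂ) * w + v)‖ ≤ ‖v‖ ^ 2 / (10 * ‖1 + w‖ ^ 2) := by
  have hq := h.hq0
  have hlin := dd_lin h hx
  have hqC : (q : ℂ) ≠ 0 := by exact_mod_cast hq.ne'
  have hqf : (q : ℂ) * φ1 (c : ℂ) = (ν : ℂ) - (F : ℂ) := by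
    rw [← h.hν, h.hF]
    ring
  have hw2 : (1 + w) ^ 2 ≠ 0 := pow_ne_zero _ hw
  have hwn : 0 < ‖1 + w‖ := norm_pos_iff.2 hw
  have hFC' : (F : ℂ) * ((C : ℂ) + 1) = (ν : ℂ) * (g : ℂ) := by exact_mod_cast hFC
  have e1 : (1 + w) ^ 2 * (φ (c : ℂ) + (x - (c : ℂ)) * φ1 (c : ℂ)) =
      (ν : ℂ) * (2 * (g : ℂ) * w + v) := by
    have e2 : (1 + w) ^ 2 * (φ (c : ℂ) + (x - (c : ℂ)) * φ1 (c : ℂ)) =
        (1 + w) ^ 2 * (F : ℂ) + v * ((q : ℂ) * φ1 (c : ℂ)) := by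
      rw [h.hF, hxc]
      field_simp
    rw [e2, hqf, hvw]
    linear_combination 2 * w * hFC'
  rw [← e1, ← mul_sub, norm_mul, norm_pow]
  have hn : ‖x - (c : ℂ)‖ / q = ‖v‖ / ‖1 + w‖ ^ 2 := by
    rw [hxc, norm_mul, norm_div, norm_pow, Complex.norm_real, Real.norm_of_nonneg hq.le]
    field_simp
  rw [hn] at hlin
  refine (mul_le_mul_of_nonneg_left hlin (by positivity)).trans (le_of_eq ?_)
  field_simp

/-- steps 5 and 6: lower bound of `‖p_W p_Y‖` -/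
private theorem prod_low {ν g C : ℝ} {W Y v pW pY : ℂ} (hν : 1 ≤ ν) (hC : 1 ≤ C) (hg1 : C ≤ g)
    (hg2 : g ≤ C + 1) (hWY : W * Y = 1 - v) (hsum : W + Y = 2 * (C : ℂ)) (hv : ‖v‖ ≤ 1 / 4)
    (hY : ‖Y‖ ≤ 1) (hW : ‖W‖ ≤ 2 * C)
    (hpY : ‖pY - (ν : ℂ) * (2 * (g : ℂ) * Y + v)‖ ≤ 1 / 280)
    (hpW : ‖pW - (ν : ℂ) * (2 * (g : ℂ) * W + v)‖ ≤ 1 / 640) :
    34184 / 10000 * (g ^ 2 * ν ^ 2) ≤ ‖pW * pY‖ := by
  have hg : 1 ≤ g := hC.trans hg1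
  set oW : ℂ := (ν : ℂ) * (2 * (g : ℂ) * W + v) with hoW
  set oY : ℂ := (ν : ℂ) * (2 * (g : ℂ) * Y + v) with hoY
  have hgn : ‖(g : ℂ)‖ = g := by rw [Complex.norm_real, Real.norm_of_nonneg (by linarith)]
  have hνn : ‖(ν : ℂ)‖ = ν := by rw [Complex.norm_real, Real.norm_of_nonneg (by linarith)]
  have h2n : ‖(2 : ℂ)‖ = 2 := by simp
  have noW : ‖oW‖ ≤ ν * (2 * g * (2 * C) + 1 / 4) := by
    rw [hoW, norm_mul, hνn]
    refine mul_le_mul_of_nonneg_left ?_ (by linarith)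
    refine (norm_add_le _ _).trans (add_le_add ?_ hv)
    rw [norm_mul, norm_mul, h2n, hgn]
    exact mul_le_mul_of_nonneg_left hW (by linarith)
  have noY : ‖oY‖ ≤ ν * (2 * g * 1 + 1 / 4) := by
    rw [hoY, norm_mul, hνn]
    refine mul_le_mul_of_nonneg_left ?_ (by linarith)
    refine (norm_add_le _ _).trans (add_le_add ?_ hv)
    rw [norm_mul, norm_mul, h2n, hgn]
    exact mul_le_mul_of_nonneg_left hY (by linarith)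
  have hprod : oW * oY = ((ν ^ 2 * (4 * g ^ 2) : ℝ) : ℂ) -
      ((ν ^ 2 * (4 * g * (g - C)) : ℝ) : ℂ) * v + ((ν ^ 2 : ℝ) : ℂ) * v ^ 2 := by
    rw [hoW, hoY]
    push_cast
    linear_combination (ν : ℂ) ^ 2 * (4 * (g : ℂ) ^ 2) * hWY + (ν : ℂ) ^ 2 * (2 * (g : ℂ) * v) * hsum
  have hν0 : 0 ≤ ν ^ 2 := sq_nonneg _
  have nprod : ν ^ 2 * (4 * g ^ 2) * (1 - 1 / 8 - 1 / 64) ≤ ‖oW * oY‖ := by
    have h1 : ‖((ν ^ 2 * (4 * g ^ 2) : ℝ) : ℂ)‖ ≤ ‖oW * oY‖ +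
        ‖((ν ^ 2 * (4 * g * (g - C)) : ℝ) : ℂ) * v‖ + ‖((ν ^ 2 : ℝ) : ℂ) * v ^ 2‖ := by
      have h2 : ((ν ^ 2 * (4 * g ^ 2) : ℝ) : ℂ) = oW * oY +
          ((ν ^ 2 * (4 * g * (g - C)) : ℝ) : ℂ) * v - ((ν ^ 2 : ℝ) : ℂ) * v ^ 2 := by
        rw [hprod]
        ring
      rw [h2]
      exact (norm_sub_le _ _).trans (add_le_add (norm_add_le _ _) le_rfl)
    have hgC : 0 ≤ g - C := by linarith
    have h3 : 0 ≤ ν ^ 2 * (4 * g * (g - C)) := by positivity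
    rw [norm_mul _ v, norm_mul _ (v ^ 2), norm_pow, Complex.norm_real, Complex.norm_real,
      Complex.norm_real, Real.norm_of_nonneg (by positivity : 0 ≤ ν ^ 2 * (4 * g ^ 2)),
      Real.norm_of_nonneg h3, Real.norm_of_nonneg hν0] at h1
    have h4 : ν ^ 2 * (4 * g * (g - C)) * ‖v‖ ≤ ν ^ 2 * (4 * g * (g - C)) * (1 / 4) :=
      mul_le_mul_of_nonneg_left hv h3
    have h5 : ‖v‖ ^ 2 ≤ (1 / 4) ^ 2 := pow_le_pow_left₀ (norm_nonneg _) hv 2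
    have h6 : ν ^ 2 * ‖v‖ ^ 2 ≤ ν ^ 2 * (1 / 4) ^ 2 := mul_le_mul_of_nonneg_left h5 hν0
    have h7 : g * (g - C) ≤ g ^ 2 / 2 := by nlinarith
    have h8 := mul_le_mul_of_nonneg_left h7 hν0
    have h9 : (1 : ℝ) ≤ g ^ 2 := by nlinarith
    have h10 := mul_le_mul_of_nonneg_left h9 hν0
    nlinarith
  have hνν : ν ≤ ν ^ 2 := by nlinarith
  have hgg : (1 : ℝ) ≤ g ^ 2 := by nlinarith
  have hgg' : g ≤ g ^ 2 := by nlinarith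
  have noW' : ‖oW‖ ≤ 17 / 4 * (g ^ 2 * ν ^ 2) := by
    have h1 : 2 * g * (2 * C) + 1 / 4 ≤ 17 / 4 * g ^ 2 := by nlinarith
    have h2 : ν * (2 * g * (2 * C) + 1 / 4) ≤ ν ^ 2 * (17 / 4 * g ^ 2) :=
      mul_le_mul hνν h1 (by positivity) hν0
    linarith
  have noY' : ‖oY‖ ≤ 9 / 4 * (g ^ 2 * ν ^ 2) := by
    have h1 : 2 * g * 1 + 1 / 4 ≤ 9 / 4 * g ^ 2 := by linarith
    have h2 : ν * (2 * g * 1 + 1 / 4) ≤ ν ^ 2 * (9 / 4 * g ^ 2) :=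
      mul_le_mul hνν h1 (by positivity) hν0
    linarith
  have hgν : 1 ≤ g ^ 2 * ν ^ 2 := by nlinarith
  have hfin : ‖oW * oY‖ ≤ ‖pW * pY‖ + ‖oW‖ * (1 / 280) + ‖oY‖ * (1 / 640) +
      1 / 640 * (1 / 280) := by
    have e1 : oW * oY = pW * pY - oW * (pY - oY) - oY * (pW - oW) - (pW - oW) * (pY - oY) := by
      ring
    have h1 : ‖oW * oY‖ ≤ ‖pW * pY‖ + ‖oW * (pY - oY)‖ + ‖oY * (pW - oW)‖ +
        ‖(pW - oW) * (pY - oY)‖ := by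
      calc ‖oW * oY‖ = ‖pW * pY - oW * (pY - oY) - oY * (pW - oW) - (pW - oW) * (pY - oY)‖ := by
            rw [← e1]
        _ ≤ _ := (norm_sub_le _ _).trans (add_le_add ((norm_sub_le _ _).trans
            (add_le_add (norm_sub_le _ _) le_rfl)) le_rfl)
    rw [norm_mul oW (pY - oY), norm_mul oY, norm_mul (pW - oW)] at h1
    have h2 := mul_le_mul_of_nonneg_left hpY (norm_nonneg oW)
    have h3 := mul_le_mul_of_nonneg_left hpW (norm_nonneg oY)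
    have h4 : ‖pW - oW‖ * ‖pY - oY‖ ≤ 1 / 640 * (1 / 280) :=
      mul_le_mul hpW hpY (norm_nonneg _) (by norm_num)
    linarith
  nlinarith

/-- `Y` is the position, `W = 2C - Y`, `v = v2 κ Y = v2 κ W`, `ζ = C - Y`.

1. `h0 e (1/W) = 4 W²/((1+W)² φ(tt W))` (`h0_eq` at `1/W`, `tt (1/W) = tt W`),
   `gs e Y = 4 Y²/((1+Y)² φ(tt Y))` (`gs_eq`).
2. For `w = Y, W` put `x = tt w`, `n w = φ c + q dslope φ c x`.  As `1 - x = 4w/(1+w)²`, `c2 (1-c) = φ c` and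
   `φ x = φ c + (x-c) dslope φ c x`:  `4 c2 w²/((1+w)² φ x) - w = w (c2 (1-x) - φ x)/φ x =
   - w (x-c)/q * n w/φ x = - (v/4) (1-x) n w/φ x`.
   Since `W - Y = 2ζ`:  `Λ = -(v/4) [(1-x_W) n_W/φ_W - (1-x_Y) n_Y/φ_Y]`.
3. `dd_main` (`‖x_W - c‖ = q ‖v‖/‖1+W‖² ≤ q/16`, `‖x_Y - c‖ = q ‖v‖/‖1+Y‖² ≤ q/7`), and
   `x_W - x_Y = q v (1/(1+W)² - 1/(1+Y)²) = - 8 ζ v/((1+W)² (1+Y)²)`:
   `‖Λ‖ ≤ 2 * 1.147 ν² ‖ζ‖ ‖v‖² / ‖p_W p_Y‖`,  `p_w = (1+w)² φ(tt w)`.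
4. `dd_lin`: `p_w = p⁰_w + (1+w)² E_w`, `p⁰_w = (1+w)² F + v (ν - F) = ν (2 g w + v)`
   (`(1+w)² = 2 (C+1) w + v`, `F (C+1) = 2 c2 = ν g`), `‖(1+w)² E_w‖ ≤ ‖v‖²/(10 ‖1+w‖²)`, which is
   `≤ ε_Y = 1/280` for `Y` and `≤ ε_W = 1/640` for `W`.
5. `p⁰_W p⁰_Y = ν² (4g² W Y + 2 g v (W+Y) + v²) = ν² (4g² - 4 g (g-C) v + v²)` (`W Y = 1 - v`, `W + Y = 2C`),
   `0 ≤ g - C ≤ 1 ≤ g` so its norm is `≥ 4g²ν² (1 - 1/8 - 1/64)`.
6. `‖p⁰_W‖ ≤ ν (4 g C + 1/4) ≤ 4g²ν² (17/16)`, `‖p⁰_Y‖ ≤ ν (2g + 1/4) ≤ 4g²ν² (9/16)` (`‖W‖ ≤ 2C`, `‖Y‖ ≤ 1`),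
   so `‖p_W p_Y‖ ≥ 4g²ν² (.859375 - 1.0625/280 - .5625/640 - 1/(4*280*640)) ≥ 4g²ν² * .8546`, and
   `2.294/(4*.8546) ≤ 17/25`.

`‖W‖ ≤ 2C`: `‖W‖² = 4C² - 4C Re Y + ‖Y‖²` and `‖Y‖² ≤ (4/3) (Re Y)² ≤ 4 C Re Y` (`disc_re`, `Re Y ≤ 1`).
`‖1+W‖ ≥ 1 + 2C - Re Y ≥ 2`. -/
theorem Lam_bound (he : 1 ≤ e) (he2 : e ≤ 2) (hκ : 0 < κ) {Y : ℂ}
    (hY : ‖Y - ((Real.exp (-κ) : ℝ) : ℂ)‖ ≤ Real.exp (-κ) / 2) (hY1 : ‖Y‖ ≤ 1)
    (hW : ‖1 / (2 * (Real.cosh κ : ℂ) - Y) - ((Real.exp (-κ) : ℝ) : ℂ)‖ ≤ Real.exp (-κ) / 2)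
    (hv : ‖v2 κ Y‖ ≤ 1 / 4) (hv7 : 7 * ‖v2 κ Y‖ ≤ ‖1 + Y‖ ^ 2) :
    ‖(c2 e κ : ℂ) * h0 e (1 / (2 * (Real.cosh κ : ℂ) - Y)) - (c2 e κ : ℂ) * gs e Y -
      2 * ((Real.cosh κ : ℂ) - Y)‖ ≤
      17 / 25 / gg e κ ^ 2 * (‖(Real.cosh κ : ℂ) - Y‖ * ‖v2 κ Y‖ ^ 2) := by
  have hdd := ddHyp he he2 hκ
  set C := Real.cosh κ with hCdef
  have hC : 1 ≤ C := Real.one_le_cosh κ
  have hC1 : 0 < C + 1 := by linarith
  obtain ⟨hg1, hg2, -⟩ := gg_facts he he2 hκ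
  rw [← hCdef] at hg1 hg2
  have hg : 0 < gg e κ := by linarith
  have ha : 0 < Real.exp (-κ) := Real.exp_pos _
  have ha1 : Real.exp (-κ) ≤ 1 := by
    rw [Real.exp_le_one_iff]
    linarith
  have hq0 : 0 < 2 / (C + 1) := by positivity
  obtain ⟨hYr, hYi⟩ := disc_re hY
  have hYr0 : 0 < Y.re := by linarith
  have hYr1 : Y.re ≤ 1 := (Complex.re_le_norm Y).trans hY1
  set W : ℂ := 2 * (C : ℂ) - Y with hWdef
  have hWre : W.re = 2 * C - Y.re := by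
    rw [hWdef]
    simp
  have hWim : W.im = -Y.im := by
    rw [hWdef]
    simp
  have hW0 : W ≠ 0 := by
    intro h
    have h1 := congrArg Complex.re h
    rw [hWre, Complex.zero_re] at h1
    linarith
  have h1W : 1 + W ≠ 0 := by
    intro h
    have h1 := congrArg Complex.re h
    rw [Complex.add_re, Complex.one_re, hWre, Complex.zero_re] at h1
    linarith
  have h1Y : 1 + Y ≠ 0 := by
    intro h
    have h1 := congrArg Complex.re h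
    rw [Complex.add_re, Complex.one_re, Complex.zero_re] at h1
    linarith
  have hWn : 2 ≤ ‖1 + W‖ := by
    refine le_trans ?_ (Complex.re_le_norm _)
    rw [Complex.add_re, Complex.one_re, hWre]
    linarith
  have hWC : ‖W‖ ≤ 2 * C := by
    apply le_of_pow_le_pow_left₀ two_ne_zero (by linarith)
    rw [← Complex.normSq_eq_norm_sq, Complex.normSq_apply, hWre, hWim]
    nlinarith
  set v : ℂ := v2 κ Y with hvdef
  have hvY : v = 1 - 2 * (C : ℂ) * Y + Y ^ 2 := rfl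
  have hvW : v2 κ W = v := by
    rw [hvY, hWdef]
    unfold v2
    rw [← hCdef]
    ring
  have hWY : W * Y = 1 - v := by
    rw [hvY, hWdef]
    ring
  -- `x_W`, `x_Y`
  have hφY : phi e (tt Y) ≠ 0 := phi_ne he he2 ha ha1 hY
  have hφW : phi e (tt W) ≠ 0 := by
    have h1 := phi_ne he he2 ha ha1 hW
    rwa [tt_inv hW0 h1W] at h1
  have h0e : h0 e (1 / W) = 4 * W ^ 2 / ((1 + W) ^ 2 * phi e (tt W)) := by
    rw [h0_eq he he2 ha ha1 hW, tt_inv hW0 h1W]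
    have h1 : 1 + 1 / W = (1 + W) / W := by
      field_simp
      ring
    rw [h1]
    field_simp
  have hge := gs_eq he he2 ha ha1 hY
  have hxcW := tt_sub (κ := κ) h1W
  have hxcY := tt_sub (κ := κ) h1Y
  rw [hvW, ← hCdef] at hxcW
  rw [← hvdef, ← hCdef] at hxcY
  have hF2 : c2 e κ * (2 / (C + 1)) = 2 * c2 e κ / (C + 1) := by ring
  have pW := piece (φ := phi e) h1W hq0.ne' (one_sub_tt h1W) hxcW hdd.hq hdd.hF hF2 hφW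
  have pY := piece (φ := phi e) h1Y hq0.ne' (one_sub_tt h1Y) hxcY hdd.hq hdd.hF hF2 hφY
  -- norms
  have hYn : 0 < ‖1 + Y‖ := norm_pos_iff.2 h1Y
  have hWn0 : 0 < ‖1 + W‖ := by linarith
  have hxW : ‖tt W - (((C - 1) / (C + 1) : ℝ) : ℂ)‖ ≤ 2 / (C + 1) / 16 := by
    rw [hxcW, norm_mul, norm_div, norm_pow, Complex.norm_real, Real.norm_of_nonneg hq0.le,
      div_eq_mul_one_div (2 / (C + 1)) 16]
    refine mul_le_mul_of_nonneg_left ?_ hq0.le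
    rw [div_le_iff₀ (by positivity)]
    nlinarith
  have hxY : ‖tt Y - (((C - 1) / (C + 1) : ℝ) : ℂ)‖ ≤ 2 / (C + 1) / 7 := by
    rw [hxcY, norm_mul, norm_div, norm_pow, Complex.norm_real, Real.norm_of_nonneg hq0.le,
      div_eq_mul_one_div (2 / (C + 1)) 7]
    refine mul_le_mul_of_nonneg_left ?_ hq0.le
    rw [div_le_iff₀ (by positivity)]
    linarith
  have hmain := dd_main hdd hxW hxY
  have hxd : tt W - tt Y = -(8 * ((C : ℂ) - Y) * v) / ((1 + W) ^ 2 * (1 + Y) ^ 2) := by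
    have e1 : tt W - tt Y = (tt W - (((C - 1) / (C + 1) : ℝ) : ℂ)) -
        (tt Y - (((C - 1) / (C + 1) : ℝ) : ℂ)) := by ring
    rw [e1, hxcW, hxcY]
    have hCC : (C : ℂ) + 1 ≠ 0 := by exact_mod_cast hC1.ne'
    have e2 : (1 + Y) ^ 2 - (1 + W) ^ 2 = -(4 * ((C : ℂ) - Y) * ((C : ℂ) + 1)) := by
      rw [hWdef]
      ring
    have e3 : ((2 / (C + 1) : ℝ) : ℂ) * (v / (1 + W) ^ 2) - ((2 / (C + 1) : ℝ) : ℂ) * (v / (1 + Y) ^ 2) =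
        2 / ((C : ℂ) + 1) * v * ((1 + Y) ^ 2 - (1 + W) ^ 2) / ((1 + W) ^ 2 * (1 + Y) ^ 2) := by
      push_cast
      field_simp
    rw [e3, e2]
    field_simp
    ring
  have hxdn : ‖tt W - tt Y‖ = 8 * ‖(C : ℂ) - Y‖ * ‖v‖ / (‖1 + W‖ ^ 2 * ‖1 + Y‖ ^ 2) := by
    rw [hxd, norm_div, norm_neg, norm_mul, norm_mul, norm_mul, norm_pow, norm_pow]
    simp
  set ν : ℝ := 2 * c2 e κ / gg e κ with hν
  set c : ℝ := (C - 1) / (C + 1) with hc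
  set q : ℝ := 2 / (C + 1) with hq
  set N : ℂ := (1 - tt W) * (phi e (c : ℂ) + (q : ℂ) * dslope (phi e) (c : ℂ) (tt W)) * phi e (tt Y) -
    (1 - tt Y) * (phi e (c : ℂ) + (q : ℂ) * dslope (phi e) (c : ℂ) (tt Y)) * phi e (tt W) with hN
  have hΛ : (c2 e κ : ℂ) * h0 e (1 / W) - (c2 e κ : ℂ) * gs e Y - 2 * ((C : ℂ) - Y) =
      -(v / 4) * (N / (phi e (tt W) * phi e (tt Y))) := by
    have e1 : (c2 e κ : ℂ) * h0 e (1 / W) - (c2 e κ : ℂ) * gs e Y - 2 * ((C : ℂ) - Y) =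
        ((c2 e κ : ℂ) * (4 * W ^ 2 / ((1 + W) ^ 2 * phi e (tt W))) - W) -
        ((c2 e κ : ℂ) * (4 * Y ^ 2 / ((1 + Y) ^ 2 * phi e (tt Y))) - Y) := by
      rw [h0e, hge, hWdef]
      ring
    rw [e1, pW, pY, hN]
    field_simp
    ring
  have hΛn : ‖-(v / 4) * (N / (phi e (tt W) * phi e (tt Y)))‖ =
      ‖v‖ / 4 * (‖N‖ / (‖phi e (tt W)‖ * ‖phi e (tt Y)‖)) := by
    rw [norm_mul, norm_neg, norm_div, norm_div, norm_mul]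
    simp
  -- the product
  have hFC : 2 * c2 e κ / (C + 1) * (C + 1) = ν * gg e κ := by
    rw [hν]
    field_simp
  have hvWq : (1 + W) ^ 2 = 2 * ((C : ℂ) + 1) * W + v := by
    rw [hvY, hWdef]
    ring
  have hvYq : (1 + Y) ^ 2 = 2 * ((C : ℂ) + 1) * Y + v := by
    rw [hvY]
    ring
  have hxW' : ‖tt W - (c : ℂ)‖ ≤ q / 7 := hxW.trans (by linarith)
  have lW := lin_piece (g := gg e κ) hdd h1W hxcW hxW' hvWq hFC
  have lY := lin_piece (g := gg e κ) hdd h1Y hxcY hxY hvYq hFC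
  have lW' : ‖(1 + W) ^ 2 * phi e (tt W) - (ν : ℂ) * (2 * (gg e κ : ℂ) * W + v)‖ ≤ 1 / 640 := by
    refine lW.trans ?_
    rw [div_le_iff₀ (by positivity)]
    have h1 : ‖v‖ ^ 2 ≤ (1 / 4) ^ 2 := pow_le_pow_left₀ (norm_nonneg _) hv 2
    have h2 : (2 : ℝ) ^ 2 ≤ ‖1 + W‖ ^ 2 := pow_le_pow_left₀ (by norm_num) hWn 2
    linarith
  have lY' : ‖(1 + Y) ^ 2 * phi e (tt Y) - (ν : ℂ) * (2 * (gg e κ : ℂ) * Y + v)‖ ≤ 1 / 280 := by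
    refine lY.trans ?_
    rw [div_le_iff₀ (by positivity)]
    have h1 : ‖v‖ ^ 2 ≤ 1 / 4 * ‖v‖ := by
      rw [sq]
      exact mul_le_mul_of_nonneg_right hv (norm_nonneg _)
    linarith
  have hprod := prod_low hdd.hν1 hC hg1 hg2 hWY (by rw [hWdef]; ring) hv hY1 hWC lY' lW'
  have hpn : ‖(1 + W) ^ 2 * phi e (tt W) * ((1 + Y) ^ 2 * phi e (tt Y))‖ =
      (‖1 + W‖ ^ 2 * ‖1 + Y‖ ^ 2) * (‖phi e (tt W)‖ * ‖phi e (tt Y)‖) := by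
    rw [norm_mul, norm_mul, norm_mul, norm_pow, norm_pow]
    ring
  rw [hpn] at hprod
  have hfW : 0 < ‖phi e (tt W)‖ := norm_pos_iff.2 hφW
  have hfY : 0 < ‖phi e (tt Y)‖ := norm_pos_iff.2 hφY
  rw [hΛ, hΛn]
  rw [hxdn] at hmain
  set x : ℝ := ‖(C : ℂ) - Y‖ with hx
  set V : ℝ := ‖v‖ with hV
  set A : ℝ := ‖1 + W‖ ^ 2 * ‖1 + Y‖ ^ 2 with hA
  set B : ℝ := ‖phi e (tt W)‖ * ‖phi e (tt Y)‖ with hB
  have hA0 : 0 < A := by positivity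
  have hB0 : 0 < B := by positivity
  have hx0 : 0 ≤ x := norm_nonneg _
  have hV0 : 0 ≤ V := norm_nonneg _
  have hν1 := hdd.hν1
  have hν0 : 0 < ν := by linarith
  have s1 : V / 4 * (‖N‖ / B) ≤ V / 4 * (1147 / 1000 * ν ^ 2 * (8 * x * V / A) / B) := by
    refine mul_le_mul_of_nonneg_left ?_ (by positivity)
    exact div_le_div_of_nonneg_right hmain hB0.le
  have s2 : V / 4 * (1147 / 1000 * ν ^ 2 * (8 * x * V / A) / B) =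
      2294 / 1000 * (ν ^ 2 * (x * V ^ 2)) / (A * B) := by
    field_simp
    ring
  refine s1.trans ?_
  rw [s2, div_le_iff₀ (by positivity)]
  have s3 : 2294 / 1000 * (ν ^ 2 * (x * V ^ 2)) ≤
      17 / 25 / gg e κ ^ 2 * (x * V ^ 2) * (34184 / 10000 * (gg e κ ^ 2 * ν ^ 2)) := by
    have e1 : 17 / 25 / gg e κ ^ 2 * (x * V ^ 2) * (34184 / 10000 * (gg e κ ^ 2 * ν ^ 2)) =
        17 / 25 * (34184 / 10000) * (ν ^ 2 * (x * V ^ 2)) := by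
      field_simp
    rw [e1]
    refine mul_le_mul_of_nonneg_right (by norm_num) (by positivity)
  exact s3.trans (mul_le_mul_of_nonneg_left hprod (by positivity))

end Pool.Agent.helper4.EQW
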