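import Mathlib

/-!
# EQW-L3: divided differences
-/

namespace Pool.Agent.helper4.EQW

open Complex

/-- `f`, `f1 = f'`, `f2 = f''` on the disc of radius `q/7` at the real point `c`, `q = 1 - c`. -/
structure DdHyp (f f1 f2 : ℂ → ℂ) (c q ν F : ℝ) : Prop where
  hc : 0 ≤ c
  hq : q = 1 - c
  hq0 : 0 < q
  d1 : ∀ t : ℂ, ‖t - (c : ℂ)‖ ≤ q / 7 → HasDerivAt f (f1 t) t
  d2 : ∀ t : ℂ, ‖t - (c : ℂ)‖ ≤ q / 7 → HasDerivAt f1 (f2 t) t
  b2 : ∀ t : ℂ, ‖t - (c : ℂ)‖ ≤ q / 7 → q ^ 2 * ‖f2 t‖ ≤ 1 / 5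
  hF : f (c : ℂ) = (F : ℂ)
  hν : f (c : ℂ) + (q : ℂ) * f1 (c : ℂ) = (ν : ℂ)
  hF0 : 0 ≤ F
  hFν : F ≤ ν
  hFν2 : F ≤ ν ^ 2
  hν1 : 1 ≤ ν

variable {f f1 f2 : ℂ → ℂ} {c q ν F : ℝ}

/-- growth along a segment -/
private theorem seg_bound {φ φ' : ℝ → ℂ} {A B : ℝ} (h0 : φ 0 = 0)
    (hd : ∀ τ ∈ Set.Icc (0 : ℝ) 1, HasDerivAt φ (φ' τ) τ)
    (hb : ∀ τ ∈ Set.Icc (0 : ℝ) 1, ‖φ' τ‖ ≤ A + B * τ) : ‖φ 1‖ ≤ A + B / 2 := by
  have hB : ∀ τ : ℝ, HasDerivAt (fun τ : ℝ => A * τ + B / 2 * τ ^ 2) (A + B * τ) τ := by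
    intro τ
    have h1 : HasDerivAt (fun τ : ℝ => A * τ) (A * 1) τ := (hasDerivAt_id τ).const_mul A
    have h2 : HasDerivAt (fun τ : ℝ => B / 2 * τ ^ 2) (B / 2 * (((2 : ℕ) : ℝ) * τ ^ (2 - 1))) τ :=
      (hasDerivAt_pow 2 τ).const_mul (B / 2)
    have h3 := h1.add h2
    refine h3.congr_deriv ?_
    norm_num
    ring
  have h := image_norm_le_of_norm_deriv_right_le_deriv_boundary (f := φ) (f' := φ') (a := 0) (b := 1)
    (B := fun τ => A * τ + B / 2 * τ ^ 2) (B' := fun τ => A + B * τ)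
    (fun τ hτ => (hd τ hτ).continuousAt.continuousWithinAt)
    (fun τ hτ => (hd τ ⟨hτ.1, hτ.2.le⟩).hasDerivWithinAt)
    (by simp [h0]) hB (fun τ hτ => hb τ ⟨hτ.1, hτ.2.le⟩)
  have h1 := h (x := 1) (by simp)
  simpa using h1

private theorem f1_lip (h : DdHyp f f1 f2 c q ν F) {x y : ℂ} (hx : ‖x - (c : ℂ)‖ ≤ q / 7)
    (hy : ‖y - (c : ℂ)‖ ≤ q / 7) : ‖f1 y - f1 x‖ ≤ 1 / (5 * q ^ 2) * ‖y - x‖ := by
  refine Convex.norm_image_sub_le_of_norm_hasDerivWithin_le (f' := f2)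
    (s := Metric.closedBall (c : ℂ) (q / 7)) ?_ ?_ (convex_closedBall _ _) ?_ ?_
  · intro t ht
    exact (h.d2 t (by simpa [dist_eq_norm] using ht)).hasDerivWithinAt
  · intro t ht
    have hb := h.b2 t (by simpa [dist_eq_norm] using ht)
    have hq2 : 0 < q ^ 2 := by have := h.hq0; positivity
    rw [le_div_iff₀ (by positivity)]
    linarith
  · simpa [dist_eq_norm] using hx
  · simpa [dist_eq_norm] using hy

private theorem seg_norm (x y : ℂ) (c : ℝ) {τ : ℝ} (hτ : τ ∈ Set.Icc (0 : ℝ) 1) :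
    ‖x + (τ : ℂ) * (y - x) - (c : ℂ)‖ ≤ (1 - τ) * ‖x - (c : ℂ)‖ + τ * ‖y - (c : ℂ)‖ := by
  have e : x + (τ : ℂ) * (y - x) - (c : ℂ) =
      ((1 - τ : ℝ) : ℂ) * (x - (c : ℂ)) + (τ : ℂ) * (y - (c : ℂ)) := by
    push_cast
    ring
  rw [e]
  refine (norm_add_le _ _).trans ?_
  rw [norm_mul, norm_mul, Complex.norm_real, Complex.norm_real, Real.norm_of_nonneg hτ.1,
    Real.norm_of_nonneg (by linarith [hτ.2] : (0 : ℝ) ≤ 1 - τ)]

private theorem seg_mem {x y : ℂ} (hx : ‖x - (c : ℂ)‖ ≤ q / 7) (hy : ‖y - (c : ℂ)‖ ≤ q / 7)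
    {τ : ℝ} (hτ : τ ∈ Set.Icc (0 : ℝ) 1) : ‖x + (τ : ℂ) * (y - x) - (c : ℂ)‖ ≤ q / 7 := by
  refine (seg_norm x y c hτ).trans ?_
  have h1 : (1 - τ) * ‖x - (c : ℂ)‖ ≤ (1 - τ) * (q / 7) :=
    mul_le_mul_of_nonneg_left hx (by linarith [hτ.2])
  have h2 : τ * ‖y - (c : ℂ)‖ ≤ τ * (q / 7) := mul_le_mul_of_nonneg_left hy hτ.1
  linarith

/-- the divided difference as a primitive along the segment -/
private noncomputable def G (f f1 : ℂ → ℂ) (x y : ℂ) (τ : ℝ) : ℂ :=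
  if y = x then (τ : ℂ) * f1 x else (f (x + (τ : ℂ) * (y - x)) - f x) / (y - x)

private theorem G_zero (f f1 : ℂ → ℂ) (x y : ℂ) : G f f1 x y 0 = 0 := by
  simp [G]

private theorem G_one (f f1 : ℂ → ℂ) (x y : ℂ) : (y - x) * G f f1 x y 1 = f y - f x := by
  unfold G
  split_ifs with hxy
  · subst hxy
    simp
  · have hne : y - x ≠ 0 := sub_ne_zero.mpr hxy
    rw [Complex.ofReal_one, one_mul, add_sub_cancel, mul_div_cancel₀ _ hne]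

private theorem G_deriv (h : DdHyp f f1 f2 c q ν F) {x y : ℂ} (hx : ‖x - (c : ℂ)‖ ≤ q / 7)
    (hy : ‖y - (c : ℂ)‖ ≤ q / 7) {τ : ℝ} (hτ : τ ∈ Set.Icc (0 : ℝ) 1) :
    HasDerivAt (G f f1 x y) (f1 (x + (τ : ℂ) * (y - x))) τ := by
  by_cases hxy : y = x
  · subst hxy
    have e : G f f1 y y = fun τ : ℝ => (τ : ℂ) * f1 y := by
      funext s
      simp [G]
    rw [e]
    have h1 : HasDerivAt (fun τ : ℝ => (τ : ℂ)) 1 τ := Complex.ofRealCLM.hasDerivAt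
    have h2 := h1.mul_const (f1 y)
    simpa using h2
  · have hne : y - x ≠ 0 := sub_ne_zero.mpr hxy
    have e : G f f1 x y = fun τ : ℝ => (f (x + (τ : ℂ) * (y - x)) - f x) / (y - x) := by
      funext s
      simp [G, hxy]
    rw [e]
    have h1 : HasDerivAt (fun τ : ℝ => (τ : ℂ)) 1 τ := Complex.ofRealCLM.hasDerivAt
    have h2 : HasDerivAt (fun τ : ℝ => x + (τ : ℂ) * (y - x)) (1 * (y - x)) τ :=
      (h1.mul_const (y - x)).const_add x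
    have h3 : HasDerivAt f (f1 (x + (τ : ℂ) * (y - x))) (x + (τ : ℂ) * (y - x)) :=
      h.d1 _ (seg_mem hx hy hτ)
    have h4 : HasDerivAt (fun τ : ℝ => f (x + (τ : ℂ) * (y - x)))
        (f1 (x + (τ : ℂ) * (y - x)) * (1 * (y - x))) τ :=
      HasDerivAt.comp (h := fun τ : ℝ => x + (τ : ℂ) * (y - x)) τ h3 h2
    have h5 := (h4.sub_const (f x)).div_const (y - x)
    refine h5.congr_deriv ?_
    field_simp

private theorem G_center (h : DdHyp f f1 f2 c q ν F) {y : ℂ} (hy : ‖y - (c : ℂ)‖ ≤ q / 7) :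
    dslope f (c : ℂ) y = G f f1 (c : ℂ) y 1 := by
  by_cases hyc : y = (c : ℂ)
  · subst hyc
    have hd : HasDerivAt f (f1 (c : ℂ)) (c : ℂ) := h.d1 _ (by simpa using by linarith [h.hq0])
    rw [dslope_same, hd.deriv]
    simp [G]
  · have hne : y - (c : ℂ) ≠ 0 := sub_ne_zero.mpr hyc
    have h1 := G_one f f1 (c : ℂ) y
    rw [dslope_of_ne _ hyc, slope_def_field]
    rw [div_eq_iff hne, ← h1]
    ring

/-- `‖D(x,y) - f1 c‖ ≤ M (‖x-c‖ + ‖y-c‖)/2` -/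
private theorem D_sub (h : DdHyp f f1 f2 c q ν F) {x y : ℂ} (hx : ‖x - (c : ℂ)‖ ≤ q / 7)
    (hy : ‖y - (c : ℂ)‖ ≤ q / 7) :
    ‖G f f1 x y 1 - f1 (c : ℂ)‖ ≤
      1 / (5 * q ^ 2) * ((‖x - (c : ℂ)‖ + ‖y - (c : ℂ)‖) / 2) := by
  have hM : 0 ≤ 1 / (5 * q ^ 2) := by positivity
  have hc0 : ‖(c : ℂ) - (c : ℂ)‖ ≤ q / 7 := by
    simpa using by linarith [h.hq0]
  have key := seg_bound (φ := fun τ => G f f1 x y τ - (τ : ℂ) * f1 (c : ℂ))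
    (φ' := fun τ => f1 (x + (τ : ℂ) * (y - x)) - f1 (c : ℂ))
    (A := 1 / (5 * q ^ 2) * ‖x - (c : ℂ)‖)
    (B := 1 / (5 * q ^ 2) * (‖y - (c : ℂ)‖ - ‖x - (c : ℂ)‖))
    (by simp [G_zero]) (fun τ hτ => by
      have h1 : HasDerivAt (fun τ : ℝ => (τ : ℂ)) 1 τ := Complex.ofRealCLM.hasDerivAt
      have h2 := h1.mul_const (f1 (c : ℂ))
      have h3 := (G_deriv h hx hy hτ).sub h2
      rw [one_mul] at h3
      exact h3) (fun τ hτ => by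
      have h1 := f1_lip h hc0 (seg_mem hx hy hτ)
      have h2 := mul_le_mul_of_nonneg_left (seg_norm x y c hτ) hM
      refine h1.trans (h2.trans (le_of_eq ?_))
      ring)
  have e : G f f1 x y 1 - f1 (c : ℂ) = (fun τ : ℝ => G f f1 x y τ - (τ : ℂ) * f1 (c : ℂ)) 1 := by
    simp
  rw [e]
  refine key.trans (le_of_eq ?_)
  ring

/-- `‖D(c,x) - D(c,y)‖ ≤ M ‖x-y‖/2` -/
private theorem D_diff (h : DdHyp f f1 f2 c q ν F) {x y : ℂ} (hx : ‖x - (c : ℂ)‖ ≤ q / 7)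
    (hy : ‖y - (c : ℂ)‖ ≤ q / 7) :
    ‖G f f1 (c : ℂ) x 1 - G f f1 (c : ℂ) y 1‖ ≤ 1 / (5 * q ^ 2) * (‖x - y‖ / 2) := by
  have hM : 0 ≤ 1 / (5 * q ^ 2) := by positivity
  have hc0 : ‖(c : ℂ) - (c : ℂ)‖ ≤ q / 7 := by
    simpa using by linarith [h.hq0]
  have key := seg_bound (φ := fun τ => G f f1 (c : ℂ) x τ - G f f1 (c : ℂ) y τ)
    (φ' := fun τ => f1 ((c : ℂ) + (τ : ℂ) * (x - (c : ℂ))) - f1 ((c : ℂ) + (τ : ℂ) * (y - (c : ℂ))))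
    (A := 0) (B := 1 / (5 * q ^ 2) * ‖x - y‖)
    (by simp [G_zero]) (fun τ hτ => (G_deriv h hc0 hx hτ).sub (G_deriv h hc0 hy hτ))
    (fun τ hτ => by
      have h1 := f1_lip h (seg_mem hc0 hy hτ) (seg_mem hc0 hx hτ)
      refine h1.trans (le_of_eq ?_)
      have e : (c : ℂ) + (τ : ℂ) * (x - (c : ℂ)) - ((c : ℂ) + (τ : ℂ) * (y - (c : ℂ))) =
          (τ : ℂ) * (x - y) := by ring
      rw [e, norm_mul, Complex.norm_real, Real.norm_of_nonneg hτ.1]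
      ring)
  refine key.trans (le_of_eq ?_)
  ring

/-- Second order Taylor estimate, `‖f2‖ ≤ M = 1/(5q²)`: the error is `≤ M ‖t-c‖²/2`
(`image_norm_le_of_norm_deriv_right_le_deriv_boundary` on the segment, or an integral). -/
theorem dd_lin (h : DdHyp f f1 f2 c q ν F) {t : ℂ} (ht : ‖t - (c : ℂ)‖ ≤ q / 7) :
    ‖f t - (f (c : ℂ) + (t - (c : ℂ)) * f1 (c : ℂ))‖ ≤ 1 / 10 * (‖t - (c : ℂ)‖ / q) ^ 2 := by
  have hq := h.hq0
  have hc0 : ‖(c : ℂ) - (c : ℂ)‖ ≤ q / 7 := by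
    simpa using by linarith [h.hq0]
  have h1 := D_sub h hc0 ht
  have h2 := G_one f f1 (c : ℂ) t
  have e : f t - (f (c : ℂ) + (t - (c : ℂ)) * f1 (c : ℂ)) =
      (t - (c : ℂ)) * (G f f1 (c : ℂ) t 1 - f1 (c : ℂ)) := by
    rw [mul_sub, h2]
    ring
  rw [e, norm_mul]
  refine (mul_le_mul_of_nonneg_left h1 (norm_nonneg _)).trans (le_of_eq ?_)
  rw [sub_self, norm_zero, zero_add]
  field_simp
  ring

/-- `(t - c) dslope f c t = f t - f c` is `sub_smul_dslope`.  With `D(x,y) = ∫₀¹ f1 (x + τ(y-x)) dτ` (so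
`f y - f x = (y - x) D(x,y)`, `dslope f c t = D(c,t)`, also for `t = c`) and `M = 1/(5q²)`:
`‖D(c,x) - D(c,y)‖ ≤ M ‖x-y‖/2`, `‖D(c,y) - f1 c‖ ≤ M ‖y-c‖/2`,
`‖D(x,y) - f1 c‖ ≤ M (‖x-c‖ + ‖y-c‖)/2`.  Put `n t = f c + q dslope f c t`, `x = tW`, `y = tY`,
`a = ‖x-c‖/q ≤ 1/16`, `b = ‖y-c‖/q ≤ 1/7`.  Then
`(1-x) n x f y - (1-y) n y f x = (1-x)(n x - n y) f y - (x-y) n y (f y + (1-y) D(x,y))`.
* `‖n x - n y‖ ≤ q M ‖x-y‖/2`, `‖1-x‖ ≤ q(1+a)`, so the first term is `≤ (1/10)(1+a) ‖f y‖ ‖x-y‖`;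
* `‖f y‖ ≤ F (1-b) + b ν + b²/10 ≤ ν² (1 + b²/10)` (`q f1 c = ν - F ≥ 0`);
* `‖n y‖ ≤ ν + b/10`;
* `f y + (1-y) D(x,y) - ν = (f y - f c - (y-c) f1 c) + (1-y)(D(x,y) - f1 c)`, norm
  `≤ b²/10 + (1+b)(a+b)/10`.
Total `≤ ν² (.10625 * 1.00205 + 1.0142858 * 1.02552) ≤ 1.1467 ν²`. -/
theorem dd_main (h : DdHyp f f1 f2 c q ν F) {tW tY : ℂ} (hW : ‖tW - (c : ℂ)‖ ≤ q / 16)
    (hY : ‖tY - (c : ℂ)‖ ≤ q / 7) :
    ‖(1 - tW) * (f (c : ℂ) + (q : ℂ) * dslope f (c : ℂ) tW) * f tY -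
      (1 - tY) * (f (c : ℂ) + (q : ℂ) * dslope f (c : ℂ) tY) * f tW‖ ≤
      1147 / 1000 * ν ^ 2 * ‖tW - tY‖ := by
  have hq := h.hq0
  have hν1 := h.hν1
  have hF0 := h.hF0
  have hFν := h.hFν
  have hFν2 := h.hFν2
  have hc0 : ‖(c : ℂ) - (c : ℂ)‖ ≤ q / 7 := by
    simpa using by linarith [h.hq0]
  have hW' : ‖tW - (c : ℂ)‖ ≤ q / 7 := hW.trans (by linarith)
  set a : ℝ := ‖tW - (c : ℂ)‖ / q with ha
  set b : ℝ := ‖tY - (c : ℂ)‖ / q with hb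
  have haq : ‖tW - (c : ℂ)‖ = a * q := by
    rw [ha]
    field_simp
  have hbq : ‖tY - (c : ℂ)‖ = b * q := by
    rw [hb]
    field_simp
  have ha0 : 0 ≤ a := by positivity
  have hb0 : 0 ≤ b := by positivity
  have ha1 : a ≤ 1 / 16 := by
    rw [haq] at hW
    have : a * q ≤ 1 / 16 * q := by linarith
    exact le_of_mul_le_mul_right this hq
  have hb1 : b ≤ 1 / 7 := by
    rw [hbq] at hY
    have : b * q ≤ 1 / 7 * q := by linarith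
    exact le_of_mul_le_mul_right this hq
  rw [G_center h hW', G_center h hY]
  set Dx := G f f1 (c : ℂ) tW 1 with hDx
  set Dy := G f f1 (c : ℂ) tY 1 with hDy
  set D := G f f1 tW tY 1 with hD
  have hD1 : (tY - tW) * D = f tY - f tW := G_one f f1 tW tY
  have hq1 : (1 : ℂ) = (c : ℂ) + (q : ℂ) := by
    rw [h.hq]
    push_cast
    ring
  -- the pieces
  have p1 : ‖(q : ℂ) * (Dx - Dy)‖ ≤ ‖tW - tY‖ / (10 * q) := by
    rw [norm_mul, Complex.norm_real, Real.norm_of_nonneg hq.le]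
    refine (mul_le_mul_of_nonneg_left (D_diff h hW' hY) hq.le).trans (le_of_eq ?_)
    field_simp
    ring
  have p2 : ‖1 - tW‖ ≤ q * (1 + a) := by
    have e : 1 - tW = (q : ℂ) - (tW - (c : ℂ)) := by
      rw [hq1]
      ring
    rw [e]
    refine (norm_sub_le _ _).trans ?_
    rw [Complex.norm_real, Real.norm_of_nonneg hq.le, haq]
    linarith
  have p3 : ‖1 - tY‖ ≤ q * (1 + b) := by
    have e : 1 - tY = (q : ℂ) - (tY - (c : ℂ)) := by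
      rw [hq1]
      ring
    rw [e]
    refine (norm_sub_le _ _).trans ?_
    rw [Complex.norm_real, Real.norm_of_nonneg hq.le, hbq]
    linarith
  have hqf : (q : ℂ) * f1 (c : ℂ) = ((ν - F : ℝ) : ℂ) := by
    have h1 := h.hν
    have h2 := h.hF
    push_cast
    rw [← h1, h2]
    ring
  have hlin := dd_lin h hY
  rw [← hb] at hlin
  have hqc : (q : ℂ) ≠ 0 := by
    exact_mod_cast hq.ne'
  have p4 : ‖f tY‖ ≤ ν ^ 2 * (1 + b ^ 2 / 10) := by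
    have e : f tY = (f tY - (f (c : ℂ) + (tY - (c : ℂ)) * f1 (c : ℂ))) +
        ((F : ℂ) + (tY - (c : ℂ)) / (q : ℂ) * ((ν - F : ℝ) : ℂ)) := by
      rw [← hqf, h.hF]
      field_simp
      ring
    have n1 : ‖(F : ℂ) + (tY - (c : ℂ)) / (q : ℂ) * ((ν - F : ℝ) : ℂ)‖ ≤ F + b * (ν - F) := by
      refine (norm_add_le _ _).trans ?_
      rw [norm_mul, norm_div, Complex.norm_real, Complex.norm_real, Complex.norm_real,
        Real.norm_of_nonneg hF0, Real.norm_of_nonneg hq.le,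
        Real.norm_of_nonneg (by linarith : (0 : ℝ) ≤ ν - F)]
    rw [e]
    refine (norm_add_le _ _).trans ?_
    have hν2 : ν ≤ ν ^ 2 := by nlinarith
    have hν3 : 1 ≤ ν ^ 2 := by nlinarith
    have i1 : F * (1 - b) ≤ ν ^ 2 * (1 - b) := mul_le_mul_of_nonneg_right hFν2 (by linarith)
    have i2 : b * ν ≤ b * ν ^ 2 := mul_le_mul_of_nonneg_left hν2 hb0
    have i3 : b ^ 2 / 10 * 1 ≤ b ^ 2 / 10 * ν ^ 2 := mul_le_mul_of_nonneg_left hν3 (by positivity)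
    nlinarith
  have p5 : ‖f (c : ℂ) + (q : ℂ) * Dy‖ ≤ ν + b / 10 := by
    have e : f (c : ℂ) + (q : ℂ) * Dy = (ν : ℂ) + (q : ℂ) * (Dy - f1 (c : ℂ)) := by
      rw [← h.hν]
      ring
    rw [e]
    refine (norm_add_le _ _).trans ?_
    rw [Complex.norm_real, Real.norm_of_nonneg (by linarith : (0 : ℝ) ≤ ν), norm_mul,
      Complex.norm_real, Real.norm_of_nonneg hq.le]
    have i1 := mul_le_mul_of_nonneg_left (D_sub h hc0 hY) hq.le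
    have i2 : q * (1 / (5 * q ^ 2) * ((‖(c : ℂ) - (c : ℂ)‖ + ‖tY - (c : ℂ)‖) / 2)) = b / 10 := by
      rw [sub_self, norm_zero, zero_add, hbq]
      field_simp
      ring
    rw [i2] at i1
    linarith
  have p6 : ‖f tY + (1 - tY) * D‖ ≤ ν + b ^ 2 / 10 + (1 + b) * (a + b) / 10 := by
    have e : f tY + (1 - tY) * D = (ν : ℂ) +
        ((f tY - (f (c : ℂ) + (tY - (c : ℂ)) * f1 (c : ℂ))) + (1 - tY) * (D - f1 (c : ℂ))) := by
      rw [← h.hν, hq1]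
      ring
    rw [e]
    refine (norm_add_le _ _).trans ?_
    rw [Complex.norm_real, Real.norm_of_nonneg (by linarith : (0 : ℝ) ≤ ν)]
    have i0 := norm_add_le (f tY - (f (c : ℂ) + (tY - (c : ℂ)) * f1 (c : ℂ)))
      ((1 - tY) * (D - f1 (c : ℂ)))
    rw [norm_mul (1 - tY)] at i0
    have i1 : ‖1 - tY‖ * ‖D - f1 (c : ℂ)‖ ≤
        q * (1 + b) * (1 / (5 * q ^ 2) * ((‖tW - (c : ℂ)‖ + ‖tY - (c : ℂ)‖) / 2)) :=
      mul_le_mul p3 (D_sub h hW' hY) (norm_nonneg _) (by positivity)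
    have i2 : q * (1 + b) * (1 / (5 * q ^ 2) * ((‖tW - (c : ℂ)‖ + ‖tY - (c : ℂ)‖) / 2)) =
        (1 + b) * (a + b) / 10 := by
      rw [haq, hbq]
      field_simp
      ring
    rw [i2] at i1
    linarith
  have e : (1 - tW) * (f (c : ℂ) + (q : ℂ) * Dx) * f tY -
      (1 - tY) * (f (c : ℂ) + (q : ℂ) * Dy) * f tW =
      (1 - tW) * ((q : ℂ) * (Dx - Dy)) * f tY +
        (tY - tW) * (f (c : ℂ) + (q : ℂ) * Dy) * (f tY + (1 - tY) * D) := by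
    have e1 : f tW = f tY - (tY - tW) * D := by
      rw [hD1]
      ring
    rw [e1]
    ring
  rw [e]
  refine (norm_add_le _ _).trans ?_
  have m1 : ‖(1 - tW) * ((q : ℂ) * (Dx - Dy)) * f tY‖ =
      ‖1 - tW‖ * ‖(q : ℂ) * (Dx - Dy)‖ * ‖f tY‖ := by
    rw [norm_mul, norm_mul (1 - tW)]
  have m2 : ‖(tY - tW) * (f (c : ℂ) + (q : ℂ) * Dy) * (f tY + (1 - tY) * D)‖ =
      ‖tY - tW‖ * ‖f (c : ℂ) + (q : ℂ) * Dy‖ * ‖f tY + (1 - tY) * D‖ := by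
    rw [norm_mul, norm_mul (tY - tW)]
  rw [m1, m2]
  have hd0 : 0 ≤ ‖tW - tY‖ := norm_nonneg _
  have hrev : ‖tY - tW‖ = ‖tW - tY‖ := norm_sub_rev _ _
  have t1 : ‖1 - tW‖ * ‖(q : ℂ) * (Dx - Dy)‖ * ‖f tY‖ ≤
      q * (1 + a) * (‖tW - tY‖ / (10 * q)) * (ν ^ 2 * (1 + b ^ 2 / 10)) :=
    mul_le_mul (mul_le_mul p2 p1 (norm_nonneg _) (by positivity)) p4 (norm_nonneg _)
      (by positivity)
  have t1' : q * (1 + a) * (‖tW - tY‖ / (10 * q)) * (ν ^ 2 * (1 + b ^ 2 / 10)) =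
      (1 + a) * (1 + b ^ 2 / 10) / 10 * ν ^ 2 * ‖tW - tY‖ := by
    field_simp
  have t2 : ‖tY - tW‖ * ‖f (c : ℂ) + (q : ℂ) * Dy‖ * ‖f tY + (1 - tY) * D‖ ≤
      ‖tW - tY‖ * (ν + b / 10) * (ν + b ^ 2 / 10 + (1 + b) * (a + b) / 10) := by
    rw [hrev]
    exact mul_le_mul (mul_le_mul_of_nonneg_left p5 hd0) p6 (norm_nonneg _) (by positivity)
  have u1 : (1 + a) * (1 + b ^ 2 / 10) / 10 ≤ 1065 / 10000 := by
    have : (1 + a) * (1 + b ^ 2 / 10) ≤ (1 + 1 / 16) * (1 + (1 / 7) ^ 2 / 10) := by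
      refine mul_le_mul (by linarith) ?_ (by positivity) (by norm_num)
      have : b ^ 2 ≤ (1 / 7) ^ 2 := by
        exact pow_le_pow_left₀ hb0 hb1 2
      linarith
    norm_num at this ⊢
    linarith
  have u2 : ν + b / 10 ≤ (1 + 1 / 70) * ν := by linarith
  have u3 : ν + b ^ 2 / 10 + (1 + b) * (a + b) / 10 ≤ (1 + 1 / 490 + 8 / 7 * (1 / 16 + 1 / 7) / 10) * ν := by
    have hb2 : b ^ 2 ≤ (1 / 7) ^ 2 := by
      exact pow_le_pow_left₀ hb0 hb1 2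
    have hab : (1 + b) * (a + b) ≤ 8 / 7 * (1 / 16 + 1 / 7) :=
      mul_le_mul (by linarith) (by linarith) (by positivity) (by norm_num)
    norm_num at hb2 hab ⊢
    linarith
  have u4 : (ν + b / 10) * (ν + b ^ 2 / 10 + (1 + b) * (a + b) / 10) ≤
      ((1 + 1 / 70) * ν) * ((1 + 1 / 490 + 8 / 7 * (1 / 16 + 1 / 7) / 10) * ν) :=
    mul_le_mul u2 u3 (by positivity) (by positivity)
  have u5 : ((1 + 1 / 70) * ν) * ((1 + 1 / 490 + 8 / 7 * (1 / 16 + 1 / 7) / 10) * ν) ≤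
      10403 / 10000 * ν ^ 2 := by
    have e5 : ((1 + 1 / 70) * ν) * ((1 + 1 / 490 + 8 / 7 * (1 / 16 + 1 / 7) / 10) * ν) =
        ((1 + 1 / 70) * (1 + 1 / 490 + 8 / 7 * (1 / 16 + 1 / 7) / 10)) * ν ^ 2 := by ring
    rw [e5]
    exact mul_le_mul_of_nonneg_right (by norm_num) (by positivity)
  have s1 : (1 + a) * (1 + b ^ 2 / 10) / 10 * ν ^ 2 * ‖tW - tY‖ ≤
      1065 / 10000 * ν ^ 2 * ‖tW - tY‖ :=
    mul_le_mul_of_nonneg_right (mul_le_mul_of_nonneg_right u1 (by positivity)) hd0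
  have s2 : ‖tW - tY‖ * (ν + b / 10) * (ν + b ^ 2 / 10 + (1 + b) * (a + b) / 10) ≤
      10403 / 10000 * ν ^ 2 * ‖tW - tY‖ := by
    rw [mul_assoc, mul_comm]
    exact mul_le_mul_of_nonneg_right (u4.trans u5) hd0
  have s3 : 1065 / 10000 * ν ^ 2 * ‖tW - tY‖ + 10403 / 10000 * ν ^ 2 * ‖tW - tY‖ ≤
      1147 / 1000 * ν ^ 2 * ‖tW - tY‖ := by
    have e6 : 1065 / 10000 * ν ^ 2 * ‖tW - tY‖ + 10403 / 10000 * ν ^ 2 * ‖tW - tY‖ =
        (1065 / 10000 + 10403 / 10000) * (ν ^ 2 * ‖tW - tY‖) := by ring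
    rw [e6, mul_assoc (1147 / 1000 : ℝ)]
    exact mul_le_mul_of_nonneg_right (by norm_num) (by positivity)
  rw [t1'] at t1
  exact (add_le_add (t1.trans s1) (t2.trans s2)).trans s3

end Pool.Agent.helper4.EQW
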