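import Pool.Agent.helper4.EQW.L.Ser

/-!
# EQW-L2: `φ = P_e^(2/e)`, `1 ≤ e ≤ 2`
-/

namespace Pool.Agent.helper4.EQW

open Complex

noncomputable section

/-- `φ = P^(2/e)` -/
def phi (e : ℝ) (t : ℂ) : ℂ := PP e t ^ ((2 / e : ℝ) : ℂ)

/-- `φ'` -/
def phi1 (e : ℝ) (t : ℂ) : ℂ := ((2 / e : ℝ) : ℂ) * PP e t ^ ((2 / e - 1 : ℝ) : ℂ) * PP1 e t

/-- `φ''` -/
def phi2 (e : ℝ) (t : ℂ) : ℂ := ((2 / e : ℝ) : ℂ) * PP e t ^ ((2 / e - 2 : ℝ) : ℂ) *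
  (((2 / e - 1 : ℝ) : ℂ) * PP1 e t ^ 2 + PP e t * PP2 e t)

end

variable {e : ℝ}

/-- `‖P - 1‖ ≤ (e-1)‖t‖ < 1`. -/
theorem PP_slit (he : 1 ≤ e) (he2 : e ≤ 2) {t : ℂ} (ht : ‖t‖ < 1) : PP e t ∈ slitPlane := by
  have h := norm_PP_sub_one he he2 ht
  have h1 : ‖PP e t - 1‖ < 1 := by
    have h2 : (e - 1) * ‖t‖ ≤ 1 * ‖t‖ :=
      mul_le_mul_of_nonneg_right (by linarith) (norm_nonneg t)
    linarith
  have h3 := Complex.mem_slitPlane_of_norm_lt_one h1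
  have h4 : 1 + (PP e t - 1) = PP e t := by ring
  rwa [h4] at h3

theorem phi_hasDerivAt (he : 1 ≤ e) (he2 : e ≤ 2) {t : ℂ} (ht : ‖t‖ < 1) :
    HasDerivAt (phi e) (phi1 e t) t := by
  have h := (PP_hasDerivAt he he2 ht).cpow_const (c := ((2 / e : ℝ) : ℂ)) (PP_slit he he2 ht)
  have h1 : (((2 / e - 1 : ℝ)) : ℂ) = ((2 / e : ℝ) : ℂ) - 1 := by
    rw [Complex.ofReal_sub, Complex.ofReal_one]
  unfold phi1
  rw [h1]
  exact h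

theorem phi1_hasDerivAt (he : 1 ≤ e) (he2 : e ≤ 2) {t : ℂ} (ht : ‖t‖ < 1) :
    HasDerivAt (phi1 e) (phi2 e t) t := by
  have hs := PP_slit he he2 ht
  have hne : PP e t ≠ 0 := Complex.slitPlane_ne_zero hs
  have h := ((((PP_hasDerivAt he he2 ht).cpow_const (c := ((2 / e - 1 : ℝ) : ℂ)) hs).const_mul
    ((2 / e : ℝ) : ℂ)).mul (PP1_hasDerivAt he he2 ht))
  have h1 : (((2 / e - 2 : ℝ)) : ℂ) = ((2 / e - 1 : ℝ) : ℂ) - 1 := by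
    push_cast
    ring
  have h2 : PP e t ^ ((2 / e - 1 : ℝ) : ℂ) = PP e t ^ (((2 / e - 1 : ℝ) : ℂ) - 1) * PP e t := by
    rw [Complex.cpow_sub _ _ hne, Complex.cpow_one]
    field_simp
  have h3 : phi2 e t = ((2 / e : ℝ) : ℂ) * (((2 / e - 1 : ℝ) : ℂ) *
      PP e t ^ (((2 / e - 1 : ℝ) : ℂ) - 1) * PP1 e t) * PP1 e t +
      ((2 / e : ℝ) : ℂ) * PP e t ^ ((2 / e - 1 : ℝ) : ℂ) * PP2 e t := by
    unfold phi2
    rw [h1, h2]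
    ring
  rw [h3]
  exact h

/-- The polynomial inequality (`x = e - 1`, margin 2.7 percent; maximum `.1945` at `x = .55`):
`(2/e) * 1.236 * ((2/e-1) (c1 + c2/3)² + 2.9 c2) ≤ 1/5`, `c1 = e(e-1)/2`, `c2 = e(e-1)(2-e)(3-e)/24`. -/
theorem phi_poly (he : 1 ≤ e) (he2 : e ≤ 2) :
    2 / e * (1236 / 1000) * ((2 / e - 1) * (cc e 1 + cc e 2 / 3) ^ 2 + 29 / 10 * cc e 2) ≤ 1 / 5 := by
  obtain ⟨x, rfl⟩ : ∃ x, e = 1 + x := ⟨e - 1, by ring⟩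
  have hx : 0 ≤ x := by linarith
  have hx1 : x ≤ 1 := by linarith
  have hpos : (0 : ℝ) < 1 + x := by linarith
  rw [cc_one, cc_two]
  have key : 2 / (1 + x) * (1236 / 1000) * ((2 / (1 + x) - 1) *
      ((1 + x) * (1 + x - 1) / 2 + (1 + x) * (1 + x - 1) * (2 - (1 + x)) * (3 - (1 + x)) / 24 / 3) ^ 2
      + 29 / 10 * ((1 + x) * (1 + x - 1) * (2 - (1 + x)) * (3 - (1 + x)) / 24)) =
      (2472 / 1000) * (x * (1 - x) * (x * (38 - 3 * x + x ^ 2) ^ 2 / 5184 + 29 / 240 * (2 - x))) := by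
    field_simp
    ring
  rw [key]
  have h1 : (38 - 3 * x + x ^ 2) ^ 2 ≤ 4 * (361 - 37 * x) := by
    have h2 : 38 - 3 * x + x ^ 2 ≤ 38 - 2 * x := by nlinarith
    have h3 : 0 ≤ 38 - 3 * x + x ^ 2 := by nlinarith
    have h4 : (38 - 3 * x + x ^ 2) ^ 2 ≤ (38 - 2 * x) ^ 2 := pow_le_pow_left₀ h3 h2 2
    nlinarith
  have h5 : x * (38 - 3 * x + x ^ 2) ^ 2 / 5184 ≤ x * (361 - 37 * x) / 1296 := by
    have h6 := mul_le_mul_of_nonneg_left h1 hx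
    linarith
  have h7 : 0 ≤ x * (1 - x) := mul_nonneg hx (by linarith)
  have h8 : x * (1 - x) * (x * (38 - 3 * x + x ^ 2) ^ 2 / 5184 + 29 / 240 * (2 - x)) ≤
      x * (1 - x) * (x * (361 - 37 * x) / 1296 + 29 / 240 * (2 - x)) :=
    mul_le_mul_of_nonneg_left (by linarith) h7
  have h9 : x * (1 - x) * (x * (361 - 37 * x) / 1296 + 29 / 240 * (2 - x)) ≤ 809 / 10000 := by
    nlinarith [sq_nonneg (x - 11 / 20), sq_nonneg (x ^ 2 - 11 / 20 * x), sq_nonneg (x * (x - 11 / 20)),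
      mul_nonneg h7 (sq_nonneg (x - 11 / 20)), mul_nonneg hx (sq_nonneg (x - 11 / 20)),
      mul_nonneg (sub_nonneg.2 hx1) (sq_nonneg (x - 11 / 20))]
  linarith

/-- Put `q = 1 - c`, `T = 1 - (6/7) q`.  Then `‖t‖ ≤ c + q/7 = T < 1`, `1 - T = (6/7) q`, `Re t ≥ -1/7`.
* `q ‖P'‖ ≤ q c1 + 2 c2 q T/(1-T) = q c1 + c2 (7/3 - 2q) ≤ c1 + c2/3` (as `c1 ≥ 2 c2`);
* `q² ‖P''‖ ≤ c2 (2 q² + 3 q² T/(1-T)) = c2 (7q/2 - q²)`;
* `‖P‖ ≤ 1 + (e-1) T`, and `(1 + x (1 - 6q/7)) (7q/2 - q²) ≤ 29/10` for `0 ≤ x ≤ 1`, `0 ≤ q ≤ 1`;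
* `‖P‖ ≥ Re P ≥ 1 - c1/7 - (e - 1 - c1) ≥ 1 - (4/7)x + (3/7)x² ≥ 17/21`, `x = e-1`, so
  `‖P‖^(2/e-2) ≤ max 1 (‖P‖⁻¹) ≤ 21/17 ≤ 1236/1000` (`-1 ≤ 2/e - 2 ≤ 0`);
then `phi_poly`. -/
theorem phi2_bound (he : 1 ≤ e) (he2 : e ≤ 2) {c : ℝ} (hc : 0 ≤ c) (hc1 : c < 1) {t : ℂ}
    (ht : ‖t - (c : ℂ)‖ ≤ (1 - c) / 7) : (1 - c) ^ 2 * ‖phi2 e t‖ ≤ 1 / 5 := by
  have hq : 0 < 1 - c := by linarith
  have hq1 : 1 - c ≤ 1 := by linarith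
  have hcn : ‖(c : ℂ)‖ = c := by rw [Complex.norm_real, Real.norm_of_nonneg hc]
  have htn : ‖t‖ ≤ c + (1 - c) / 7 := by
    have h1 : ‖t‖ ≤ ‖t - (c : ℂ)‖ + ‖(c : ℂ)‖ := by
      have h2 := norm_add_le (t - (c : ℂ)) (c : ℂ)
      rwa [sub_add_cancel] at h2
    rw [hcn] at h1
    linarith
  have ht1 : ‖t‖ < 1 := by linarith
  have htr : -(1 / 7) ≤ t.re := by
    have h1 := Complex.abs_re_le_norm (t - (c : ℂ))
    rw [Complex.sub_re, Complex.ofReal_re] at h1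
    have h2 := (abs_le.1 (le_trans h1 ht)).1
    linarith
  have hc1n := cc_nonneg he he2 1
  have hc2n := cc_nonneg he he2 2
  have hc12 : 2 * cc e 2 ≤ cc e 1 := by
    rw [cc_one, cc_two]
    have h1 : 0 ≤ e * (e - 1) := mul_nonneg (by linarith) (by linarith)
    have h2 : (2 - e) * (3 - e) ≤ 2 := by nlinarith
    nlinarith [mul_le_mul_of_nonneg_left h2 h1]
  -- the quotient
  have hu : (1 - c) * (‖t‖ / (1 - ‖t‖)) ≤ 7 / 6 - (1 - c) := by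
    have h1 : 0 < 1 - ‖t‖ := by linarith
    rw [← mul_div_assoc, div_le_iff₀ h1]
    nlinarith
  have hu0 : 0 ≤ ‖t‖ / (1 - ‖t‖) := div_nonneg (norm_nonneg _) (by linarith)
  -- first derivative
  have hP1 : (1 - c) * ‖PP1 e t‖ ≤ cc e 1 + cc e 2 / 3 := by
    have h1 := mul_le_mul_of_nonneg_left (norm_PP1 he he2 ht1) hq.le
    have h2 : (1 - c) * (cc e 1 + 2 * cc e 2 * (‖t‖ / (1 - ‖t‖))) =
        (1 - c) * cc e 1 + 2 * cc e 2 * ((1 - c) * (‖t‖ / (1 - ‖t‖))) := by ring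
    have h3 := mul_le_mul_of_nonneg_left hu (by linarith : 0 ≤ 2 * cc e 2)
    have h4 := mul_nonneg hc (by linarith : 0 ≤ cc e 1 - 2 * cc e 2)
    nlinarith
  -- second derivative
  have hP2 : (1 - c) ^ 2 * ‖PP2 e t‖ ≤ cc e 2 * (7 / 2 * (1 - c) - (1 - c) ^ 2) := by
    have h1 := mul_le_mul_of_nonneg_left (norm_PP2 he he2 ht1) (sq_nonneg (1 - c))
    have h2 : (1 - c) ^ 2 * (2 * cc e 2 + 3 * cc e 2 * (‖t‖ / (1 - ‖t‖))) =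
        2 * cc e 2 * (1 - c) ^ 2 + 3 * cc e 2 * (1 - c) * ((1 - c) * (‖t‖ / (1 - ‖t‖))) := by ring
    have h3 := mul_le_mul_of_nonneg_left hu
      (mul_nonneg (by linarith : 0 ≤ 3 * cc e 2) hq.le)
    rw [h2] at h1
    nlinarith
  -- upper bound of `P`
  have hPu : ‖PP e t‖ ≤ 1 + (e - 1) * (1 - 6 / 7 * (1 - c)) := by
    have h1 := norm_PP_sub_one he he2 ht1
    have h2 : ‖PP e t‖ ≤ ‖PP e t - 1‖ + 1 := by
      have h3 := norm_add_le (PP e t - 1) 1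
      rw [sub_add_cancel, norm_one] at h3
      exact h3
    have h4 : (e - 1) * ‖t‖ ≤ (e - 1) * (1 - 6 / 7 * (1 - c)) :=
      mul_le_mul_of_nonneg_left (by linarith) (by linarith)
    linarith
  -- lower bound of `P`
  have hPl : 17 / 21 ≤ ‖PP e t‖ := by
    have h1 := re_PP he he2 ht1
    have h2 : (PP e t).re ≤ ‖PP e t‖ := Complex.re_le_norm _
    have h3 : cc e 1 * -(1 / 7) ≤ cc e 1 * t.re := mul_le_mul_of_nonneg_left htr hc1n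
    have h4 : 17 / 21 ≤ 1 - 1 / 7 * cc e 1 - (e - 1 - cc e 1) := by
      rw [cc_one]
      nlinarith [sq_nonneg (e - 5 / 3)]
    linarith
  have hPpos : 0 < ‖PP e t‖ := by linarith
  have he0 : 0 < e := by linarith
  have hs1 : -1 ≤ 2 / e - 2 := by
    have h1 : 1 ≤ 2 / e := by rw [le_div_iff₀ he0]; linarith
    linarith
  have hs2 : 2 / e - 2 ≤ 0 := by
    have h1 : 2 / e ≤ 2 := by rw [div_le_iff₀ he0]; linarith
    linarith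
  have hpow : ‖PP e t ^ ((2 / e - 2 : ℝ) : ℂ)‖ ≤ 1236 / 1000 := by
    rw [Complex.norm_cpow_real]
    have h1 : ‖PP e t‖ ^ (2 / e - 2) ≤ (17 / 21 : ℝ) ^ (2 / e - 2) :=
      Real.rpow_le_rpow_of_nonpos (by norm_num) hPl hs2
    have h2 : (17 / 21 : ℝ) ^ (2 / e - 2) ≤ (17 / 21 : ℝ) ^ (-1 : ℝ) :=
      Real.rpow_le_rpow_of_exponent_ge (by norm_num) (by norm_num) hs1
    rw [Real.rpow_neg_one] at h2
    have h3 : ((17 / 21 : ℝ))⁻¹ ≤ 1236 / 1000 := by norm_num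
    linarith
  -- put together
  have h2e : 0 ≤ 2 / e := by positivity
  have h2e1 : 0 ≤ 2 / e - 1 := by linarith
  have hn2e : ‖((2 / e : ℝ) : ℂ)‖ = 2 / e := by rw [Complex.norm_real, Real.norm_of_nonneg h2e]
  have hn2e1 : ‖((2 / e - 1 : ℝ) : ℂ)‖ = 2 / e - 1 := by
    rw [Complex.norm_real, Real.norm_of_nonneg h2e1]
  have hin : (1 - c) ^ 2 * ‖((2 / e - 1 : ℝ) : ℂ) * PP1 e t ^ 2 + PP e t * PP2 e t‖ ≤
      (2 / e - 1) * (cc e 1 + cc e 2 / 3) ^ 2 + 29 / 10 * cc e 2 := by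
    have h1 : ‖((2 / e - 1 : ℝ) : ℂ) * PP1 e t ^ 2 + PP e t * PP2 e t‖ ≤
        (2 / e - 1) * ‖PP1 e t‖ ^ 2 + ‖PP e t‖ * ‖PP2 e t‖ := by
      refine le_trans (norm_add_le _ _) ?_
      rw [norm_mul, norm_mul, norm_pow, hn2e1]
    have h2 := mul_le_mul_of_nonneg_left h1 (sq_nonneg (1 - c))
    have h3 : (1 - c) ^ 2 * ((2 / e - 1) * ‖PP1 e t‖ ^ 2 + ‖PP e t‖ * ‖PP2 e t‖) =
        (2 / e - 1) * ((1 - c) * ‖PP1 e t‖) ^ 2 + ‖PP e t‖ * ((1 - c) ^ 2 * ‖PP2 e t‖) := by ring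
    have h4 : ((1 - c) * ‖PP1 e t‖) ^ 2 ≤ (cc e 1 + cc e 2 / 3) ^ 2 :=
      pow_le_pow_left₀ (mul_nonneg hq.le (norm_nonneg _)) hP1 2
    have h5 := mul_le_mul_of_nonneg_left h4 h2e1
    have h6 : ‖PP e t‖ * ((1 - c) ^ 2 * ‖PP2 e t‖) ≤
        (1 + (e - 1) * (1 - 6 / 7 * (1 - c))) * (cc e 2 * (7 / 2 * (1 - c) - (1 - c) ^ 2)) :=
      mul_le_mul hPu hP2 (mul_nonneg (sq_nonneg _) (norm_nonneg _)) (le_trans (norm_nonneg _) hPu)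
    have h7 : (1 + (e - 1) * (1 - 6 / 7 * (1 - c))) * (7 / 2 * (1 - c) - (1 - c) ^ 2) ≤ 29 / 10 := by
      have h8 : 0 ≤ 7 / 2 * (1 - c) - (1 - c) ^ 2 := by nlinarith
      have h9 : 1 + (e - 1) * (1 - 6 / 7 * (1 - c)) ≤ 2 - 6 / 7 * (1 - c) := by
        have h10 : (e - 1) * (1 - 6 / 7 * (1 - c)) ≤ 1 * (1 - 6 / 7 * (1 - c)) :=
          mul_le_mul_of_nonneg_right (by linarith) (by linarith)
        linarith
      have h11 := mul_le_mul_of_nonneg_right h9 h8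
      have h12 : (2 - 6 / 7 * (1 - c)) * (7 / 2 * (1 - c) - (1 - c) ^ 2) ≤ 29 / 10 := by
        nlinarith [sq_nonneg (1 - c - 9 / 10), mul_nonneg hq.le (sq_nonneg (1 - c - 9 / 10)),
          mul_nonneg (by linarith : 0 ≤ 1 - (1 - c)) (sq_nonneg (1 - c - 9 / 10)),
          mul_nonneg hq.le (by linarith : 0 ≤ 1 - (1 - c))]
      linarith
    have h13 := mul_le_mul_of_nonneg_left h7 hc2n
    rw [h3] at h2
    nlinarith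
  have hfin : (1 - c) ^ 2 * ‖phi2 e t‖ = 2 / e * ‖PP e t ^ ((2 / e - 2 : ℝ) : ℂ)‖ *
      ((1 - c) ^ 2 * ‖((2 / e - 1 : ℝ) : ℂ) * PP1 e t ^ 2 + PP e t * PP2 e t‖) := by
    unfold phi2
    rw [norm_mul, norm_mul, hn2e]
    ring
  rw [hfin]
  refine le_trans ?_ (phi_poly he he2)
  have h1 : 2 / e * ‖PP e t ^ ((2 / e - 2 : ℝ) : ℂ)‖ ≤ 2 / e * (1236 / 1000) :=
    mul_le_mul_of_nonneg_left hpow h2e
  exact mul_le_mul h1 hin (mul_nonneg (sq_nonneg _) (norm_nonneg _)) (by positivity)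

end Pool.Agent.helper4.EQW
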