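import Mathlib

/-!
# EQW-L1: the power series `P_e(t) = ∑ binom(e,2k) t^k`, `1 ≤ e ≤ 2`
-/

namespace Pool.Agent.helper4.EQW

open Complex

noncomputable section

/-- `binom(e, 2k)` -/
def cc (e : ℝ) : ℕ → ℝ
  | 0 => 1
  | k + 1 => cc e k * ((e - 2 * k) * (e - 2 * k - 1)) / ((2 * k + 1) * (2 * k + 2))

/-- `P_e` -/
def PP (e : ℝ) (t : ℂ) : ℂ := ∑' k : ℕ, (cc e k : ℂ) * t ^ k

/-- `P_e'` -/
def PP1 (e : ℝ) (t : ℂ) : ℂ := ∑' k : ℕ, ((((k : ℝ) + 1) * cc e (k + 1) : ℝ) : ℂ) * t ^ k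

/-- `P_e''` -/
def PP2 (e : ℝ) (t : ℂ) : ℂ :=
  ∑' k : ℕ, ((((k : ℝ) + 1) * ((k : ℝ) + 2) * cc e (k + 2) : ℝ) : ℂ) * t ^ k

end

variable {e : ℝ}

theorem cc_zero : cc e 0 = 1 := rfl

theorem cc_one : cc e 1 = e * (e - 1) / 2 := by
  simp [cc]

theorem cc_two : cc e 2 = e * (e - 1) * (2 - e) * (3 - e) / 24 := by
  simp only [cc]
  push_cast
  ring

/-- For `k ≥ 1` both factors `e - 2k`, `e - 2k - 1` are `≤ 0`; for `k = 0` both are `≥ 0`. -/
theorem cc_nonneg (he : 1 ≤ e) (he2 : e ≤ 2) (k : ℕ) : 0 ≤ cc e k := by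
  induction k with
  | zero => exact zero_le_one
  | succ k ih =>
    simp only [cc]
    apply div_nonneg
    · apply mul_nonneg ih
      rcases Nat.eq_zero_or_pos k with hk | hk
      · subst hk
        simp only [Nat.cast_zero, mul_zero, sub_zero]
        exact mul_nonneg (by linarith) (by linarith)
      · have hk' : (1 : ℝ) ≤ k := by exact_mod_cast hk
        exact mul_nonneg_of_nonpos_of_nonpos (by linarith) (by linarith)
    · positivity

/-- With `K = k + 2`: `cc K * K * (2K-1) ≤ 6 cc 2`.  Induction: `(K+1)(2K+1)/((2K+1)(2K+2)) = 1/2` and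
`(2K-e)(2K+1-e) ≤ (2K-1)(2K)` for `e ≥ 1`. -/
theorem cc_le (he : 1 ≤ e) (he2 : e ≤ 2) (k : ℕ) :
    cc e (k + 2) * (((k : ℝ) + 2) * (2 * k + 3)) ≤ 6 * cc e 2 := by
  induction k with
  | zero =>
    simp only [Nat.cast_zero, mul_zero, zero_add]
    apply le_of_eq
    ring
  | succ k ih =>
    have h0 := cc_nonneg he he2 (k + 2)
    have hk : (0 : ℝ) ≤ k := Nat.cast_nonneg k
    have e1 : cc e (k + 1 + 2) = cc e (k + 2) *
        ((e - 2 * ((k + 2 : ℕ) : ℝ)) * (e - 2 * ((k + 2 : ℕ) : ℝ) - 1)) /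
        ((2 * ((k + 2 : ℕ) : ℝ) + 1) * (2 * ((k + 2 : ℕ) : ℝ) + 2)) := rfl
    have e2 : cc e (k + 1 + 2) * ((((k + 1 : ℕ) : ℝ) + 2) * (2 * ((k + 1 : ℕ) : ℝ) + 3)) =
        cc e (k + 2) * ((2 * ((k : ℝ) + 2) - e) * (2 * ((k : ℝ) + 2) + 1 - e) / 2) := by
      rw [e1]
      push_cast
      have h1 : (2 * ((k : ℝ) + 2) + 1) ≠ 0 := by positivity
      have h2 : (2 * ((k : ℝ) + 2) + 2) ≠ 0 := by positivity
      field_simp
      ring
    rw [e2]
    refine le_trans (mul_le_mul_of_nonneg_left ?_ h0) ih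
    nlinarith [mul_nonneg hk (by linarith : (0:ℝ) ≤ e - 1)]

private theorem ser_cc_le_one (he : 1 ≤ e) (he2 : e ≤ 2) (k : ℕ) : cc e k ≤ 1 := by
  have h2 : cc e 2 ≤ 1 := by
    rw [cc_two]
    have h1 : e * (e - 1) ≤ 2 * 1 := mul_le_mul he2 (by linarith) (by linarith) (by norm_num)
    have h3 : (2 - e) * (3 - e) ≤ 1 * 2 :=
      mul_le_mul (by linarith) (by linarith) (by linarith) (by norm_num)
    have h4 : e * (e - 1) * ((2 - e) * (3 - e)) ≤ (2 * 1) * (1 * 2) :=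
      mul_le_mul h1 h3 (mul_nonneg (by linarith) (by linarith)) (by norm_num)
    nlinarith
  match k with
  | 0 => exact le_refl 1
  | 1 => rw [cc_one]; nlinarith
  | k + 2 =>
    have h := cc_le he he2 k
    have h0 := cc_nonneg he he2 (k + 2)
    have hk : (0 : ℝ) ≤ k := Nat.cast_nonneg k
    have h3 : (6 : ℝ) ≤ ((k : ℝ) + 2) * (2 * k + 3) := by nlinarith
    have h4 := mul_le_mul_of_nonneg_left h3 h0
    linarith

/-- `K cc K ≤ 2 cc 2` for `K ≥ 2` -/
private theorem ser_kcc (he : 1 ≤ e) (he2 : e ≤ 2) (k : ℕ) :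
    ((k : ℝ) + 2) * cc e (k + 2) ≤ 2 * cc e 2 := by
  have h := cc_le he he2 k
  have h0 := cc_nonneg he he2 (k + 2)
  have hk : (0 : ℝ) ≤ k := Nat.cast_nonneg k
  have h1 : 0 ≤ ((k : ℝ) + 2) * cc e (k + 2) := by positivity
  have h3 : (((k : ℝ) + 2) * cc e (k + 2)) * 3 ≤ (((k : ℝ) + 2) * cc e (k + 2)) * (2 * k + 3) :=
    mul_le_mul_of_nonneg_left (by linarith) h1
  nlinarith

/-- `K (K-1) cc K ≤ 3 cc 2` for `K ≥ 2` -/
private theorem ser_kkcc (he : 1 ≤ e) (he2 : e ≤ 2) (k : ℕ) :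
    ((k : ℝ) + 1) * ((k : ℝ) + 2) * cc e (k + 2) ≤ 3 * cc e 2 := by
  have h := cc_le he he2 k
  have h0 := cc_nonneg he he2 (k + 2)
  have hk : (0 : ℝ) ≤ k := Nat.cast_nonneg k
  have h1 : 0 ≤ ((k : ℝ) + 2) * cc e (k + 2) := by positivity
  have h3 : (((k : ℝ) + 2) * cc e (k + 2)) * (2 * (k + 1)) ≤
      (((k : ℝ) + 2) * cc e (k + 2)) * (2 * k + 3) :=
    mul_le_mul_of_nonneg_left (by linarith) h1
  nlinarith

private theorem ser_summable (a : ℕ → ℝ) (B : ℝ) (ha : ∀ k, |a k| ≤ B) {t : ℂ} (ht : ‖t‖ < 1) :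
    Summable (fun k : ℕ => (a k : ℂ) * t ^ k) := by
  have hB : 0 ≤ B := le_trans (abs_nonneg _) (ha 0)
  apply Summable.of_norm_bounded (g := fun k : ℕ => B * ‖t‖ ^ k)
    ((summable_geometric_of_lt_one (norm_nonneg _) ht).mul_left B)
  intro k
  rw [norm_mul, norm_pow, Complex.norm_real, Real.norm_eq_abs]
  exact mul_le_mul_of_nonneg_right (ha k) (by positivity)

/-- termwise derivative of a power series with bounded coefficients -/
private theorem ser_deriv (a : ℕ → ℝ) (B : ℝ) (ha : ∀ k, |a k| ≤ B) {t : ℂ} (ht : ‖t‖ < 1) :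
    HasDerivAt (fun z : ℂ => ∑' k : ℕ, (a k : ℂ) * z ^ k)
      (∑' k : ℕ, ((((k : ℝ) + 1) * a (k + 1) : ℝ) : ℂ) * t ^ k) t := by
  have hB : 0 ≤ B := le_trans (abs_nonneg _) (ha 0)
  obtain ⟨ρ, h1, h2⟩ := exists_between ht
  have hρ0 : 0 ≤ ρ := le_trans (norm_nonneg _) h1.le
  have hu : Summable (fun n : ℕ => B * ((n : ℝ) * ρ ^ (n - 1))) := by
    apply Summable.mul_left
    have h3 : Summable (fun n : ℕ => ((n : ℝ) ^ 1 * ρ ^ n)) :=
      summable_pow_mul_geometric_of_norm_lt_one 1 (by rwa [Real.norm_of_nonneg hρ0])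
    rcases eq_or_lt_of_le hρ0 with h0 | h0
    · apply summable_of_ne_finset_zero (s := {1})
      intro n hn
      rw [Finset.mem_singleton] at hn
      rcases Nat.eq_zero_or_pos n with h | h
      · subst h
        simp
      · have : n - 1 ≠ 0 := by omega
        rw [← h0, zero_pow this, mul_zero]
    · have h4 := h3.mul_right (ρ⁻¹)
      refine h4.congr (fun n => ?_)
      rcases Nat.eq_zero_or_pos n with h | h
      · subst h
        simp
      · obtain ⟨m, rfl⟩ := Nat.exists_eq_succ_of_ne_zero h.ne'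
        rw [Nat.succ_eq_add_one, Nat.add_sub_cancel, pow_succ]
        field_simp
        ring
  have hd := hasDerivAt_tsum_of_isPreconnected (𝕜 := ℂ) (F := ℂ)
    (g := fun (n : ℕ) (z : ℂ) => (a n : ℂ) * z ^ n)
    (g' := fun (n : ℕ) (z : ℂ) => (a n : ℂ) * ((n : ℂ) * z ^ (n - 1)))
    (t := Metric.ball (0 : ℂ) ρ) (y₀ := 0) (y := t) hu Metric.isOpen_ball
    (convex_ball (0 : ℂ) ρ).isPreconnected
    (fun n y _ => (hasDerivAt_pow n y).const_mul _)
    (fun n y hy => by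
      rw [mem_ball_zero_iff] at hy
      rw [norm_mul, norm_mul, norm_pow, Complex.norm_real, Real.norm_eq_abs, Complex.norm_natCast]
      apply mul_le_mul (ha n) _ (by positivity) hB
      exact mul_le_mul_of_nonneg_left (pow_le_pow_left₀ (norm_nonneg _) hy.le _) (by positivity))
    (by rw [mem_ball_zero_iff, norm_zero]; exact lt_of_le_of_lt (norm_nonneg _) h1)
    (ser_summable a B ha (by rw [norm_zero]; exact one_pos))
    (by rwa [mem_ball_zero_iff])
  refine hd.congr_deriv ?_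
  have hs : Summable (fun n : ℕ => (a n : ℂ) * ((n : ℂ) * t ^ (n - 1))) := by
    apply Summable.of_norm_bounded hu
    intro n
    rw [norm_mul, norm_mul, norm_pow, Complex.norm_real, Real.norm_eq_abs, Complex.norm_natCast]
    apply mul_le_mul (ha n) _ (by positivity) hB
    exact mul_le_mul_of_nonneg_left (pow_le_pow_left₀ (norm_nonneg _) h1.le _) (by positivity)
  rw [hs.tsum_eq_zero_add]
  simp only [Nat.cast_zero, zero_mul, mul_zero, zero_add]
  apply tsum_congr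
  intro n
  rw [Nat.add_sub_cancel]
  push_cast
  ring

/-- Termwise differentiation of the power series (the coefficients are bounded, by `cc_le`), e.g. by
`hasDerivAt_tsum_of_isPreconnected` on a smaller ball, or by `HasFPowerSeriesOnBall`. -/
theorem PP_hasDerivAt (he : 1 ≤ e) (he2 : e ≤ 2) {t : ℂ} (ht : ‖t‖ < 1) :
    HasDerivAt (PP e) (PP1 e t) t := by
  exact ser_deriv (cc e) 1 (fun k => by
    rw [abs_of_nonneg (cc_nonneg he he2 k)]
    exact ser_cc_le_one he he2 k) ht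

theorem PP1_hasDerivAt (he : 1 ≤ e) (he2 : e ≤ 2) {t : ℂ} (ht : ‖t‖ < 1) :
    HasDerivAt (PP1 e) (PP2 e t) t := by
  have h := ser_deriv (fun k => ((k : ℝ) + 1) * cc e (k + 1)) 2 (fun k => by
    have h0 := cc_nonneg he he2 (k + 1)
    rw [abs_of_nonneg (by positivity)]
    match k with
    | 0 =>
      have := ser_cc_le_one he he2 1
      simp only [Nat.cast_zero, zero_add, one_mul]
      linarith
    | k + 1 =>
      have h1 := ser_kcc he he2 k
      have h2 := ser_cc_le_one he he2 2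
      push_cast
      have e1 : ((k : ℝ) + 1 + 1) = k + 2 := by ring
      rw [e1]
      change ((k : ℝ) + 2) * cc e (k + 2) ≤ 2
      linarith) ht
  refine h.congr_deriv ?_
  unfold PP2
  apply tsum_congr
  intro k
  congr 2
  push_cast
  ring

private theorem ser_choose_succ (a : ℂ) (n : ℕ) :
    ((n : ℂ) + 1) * Ring.choose a (n + 1) = Ring.choose a n * (a - n) := by
  have h1 := Ring.descPochhammer_eq_factorial_smul_choose a (n + 1)
  have h2 := Ring.descPochhammer_eq_factorial_smul_choose a n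
  have h3 : (descPochhammer ℤ (n + 1)).smeval a = (descPochhammer ℤ n).smeval a * (a - n) := by
    simp [descPochhammer_succ_right, Polynomial.smeval_mul, Polynomial.smeval_natCast]
  rw [h1, h2, nsmul_eq_mul, nsmul_eq_mul, Nat.factorial_succ] at h3
  push_cast at h3
  have h4 : (Nat.factorial n : ℂ) ≠ 0 := by exact_mod_cast Nat.factorial_ne_zero n
  apply mul_left_cancel₀ h4
  linear_combination h3

private theorem ser_choose_even (k : ℕ) : Ring.choose (e : ℂ) (2 * k) = (cc e k : ℂ) := by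
  induction k with
  | zero => simp [cc]
  | succ k ih =>
    have h1 := ser_choose_succ (e : ℂ) (2 * k)
    have h2 := ser_choose_succ (e : ℂ) (2 * k + 1)
    rw [ih] at h1
    have e1 : 2 * (k + 1) = 2 * k + 1 + 1 := by ring
    rw [e1]
    push_cast at h1 h2
    simp only [cc]
    push_cast
    have h3 : (2 * (k : ℂ) + 1) ≠ 0 := by exact_mod_cast (by omega : 2 * k + 1 ≠ 0)
    have h4 : (2 * (k : ℂ) + 2) ≠ 0 := by exact_mod_cast (by omega : 2 * k + 2 ≠ 0)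
    rw [eq_div_iff (mul_ne_zero h3 h4)]
    have h5 : (2 * (k : ℂ) + 1 + 1) = 2 * (k : ℂ) + 2 := by ring
    rw [h5] at h2
    linear_combination (2 * (k : ℂ) + 1) * h2 + ((e : ℂ) - (2 * k + 1)) * h1

/-- `Complex.one_add_cpow_hasFPowerSeriesOnBall_zero` (Mathlib/Analysis/Analytic/Binomial.lean): for `‖r‖ < 1`
`(1+r)^e = ∑ choose e n r^n`, and the same with `-r`; half the sum keeps the even terms;
`Ring.choose e (2k) = cc e k` by induction. -/
theorem PP_sq (he : 1 ≤ e) (he2 : e ≤ 2) {r : ℂ} (hr : ‖r‖ < 1) :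
    PP e (r ^ 2) = ((1 + r) ^ (e : ℂ) + (1 - r) ^ (e : ℂ)) / 2 := by
  have hc := fun k => ser_choose_even (e := e) k
  have hs : ∀ s : ℂ, ‖s‖ < 1 →
      HasSum (fun n : ℕ => Ring.choose (e : ℂ) n * s ^ n) ((1 + s) ^ (e : ℂ)) := by
    intro s hs
    have h := (Complex.one_add_cpow_hasFPowerSeriesOnBall_zero (a := (e : ℂ))).hasSum (y := s) (by
      rw [← ENNReal.ofReal_one, Metric.eball_ofReal]
      simpa using hs)
    rw [zero_add] at h
    refine h.congr_fun (fun n => ?_)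
    rw [binomialSeries_apply]
    simp
  have h1 := hs r hr
  have h2 := hs (-r) (by rwa [norm_neg])
  have h3 := (h1.add h2).div_const 2
  have h4 : HasSum ((fun n : ℕ => (Ring.choose (e : ℂ) n * r ^ n +
      Ring.choose (e : ℂ) n * (-r) ^ n) / 2) ∘ (fun k : ℕ => 2 * k))
      (((1 + r) ^ (e : ℂ) + (1 + -r) ^ (e : ℂ)) / 2) := by
    rw [Function.Injective.hasSum_iff (fun a b h => by simpa using h)]
    · exact h3
    · intro n hn
      have hodd : Odd n := by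
        rw [← Nat.not_even_iff_odd]
        rintro ⟨k, hk⟩
        exact hn ⟨k, by simp only; omega⟩
      rw [hodd.neg_pow]
      ring
  have h5 : PP e (r ^ 2) = ((1 + r) ^ (e : ℂ) + (1 + -r) ^ (e : ℂ)) / 2 := by
    unfold PP
    rw [← h4.tsum_eq]
    apply tsum_congr
    intro k
    simp only [Function.comp]
    rw [hc k, pow_mul, pow_mul, neg_sq]
    ring
  rw [h5, sub_eq_add_neg]

/-- Partial sums: for real `r ∈ (0,1)` and `PP_sq` at `r`:
`∑_{k ≤ n} cc k r^(2k) ≤ ((1+r)^e + (1-r)^e)/2`; let `r → 1`: `∑_{k ≤ n} cc k ≤ 2^(e-1) ≤ e` (convexity: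
`2^x ≤ 1 + x` on `[0,1]`). -/
theorem cc_sum (he : 1 ≤ e) (he2 : e ≤ 2) (n : ℕ) : ∑ k ∈ Finset.range n, cc e (k + 1) ≤ e - 1 := by
  have key : ∀ r : ℝ, 0 < r → r < 1 →
      ∑ k ∈ Finset.range (n + 1), cc e k * (r ^ 2) ^ k ≤ ((1 + r) ^ e + (1 - r) ^ e) / 2 := by
    intro r h0 h1
    have hr : ‖(r : ℂ)‖ < 1 := by rwa [Complex.norm_real, Real.norm_of_nonneg h0.le]
    have h2 := PP_sq he he2 hr
    have hr2 : |r ^ 2| < 1 := by
      rw [abs_of_nonneg (by positivity)]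
      nlinarith
    have hsum : Summable (fun k : ℕ => cc e k * (r ^ 2) ^ k) := by
      apply Summable.of_norm_bounded (g := fun k : ℕ => (r ^ 2) ^ k)
        (summable_geometric_of_lt_one (by positivity) (lt_of_abs_lt hr2))
      intro k
      rw [norm_mul, Real.norm_of_nonneg (cc_nonneg he he2 k), norm_pow,
        Real.norm_of_nonneg (by positivity : (0:ℝ) ≤ r ^ 2)]
      have := ser_cc_le_one he he2 k
      have h3 : (0 : ℝ) ≤ (r ^ 2) ^ k := by positivity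
      nlinarith
    have h3 : PP e ((r : ℂ) ^ 2) = ((∑' k : ℕ, cc e k * (r ^ 2) ^ k : ℝ) : ℂ) := by
      unfold PP
      rw [Complex.ofReal_tsum]
      apply tsum_congr
      intro k
      push_cast
      ring
    have h4 : ((1 + (r : ℂ)) ^ (e : ℂ) + (1 - (r : ℂ)) ^ (e : ℂ)) / 2 =
        (((((1 + r) ^ e + (1 - r) ^ e) / 2 : ℝ)) : ℂ) := by
      push_cast
      rw [Complex.ofReal_cpow (by linarith), Complex.ofReal_cpow (by linarith)]
      push_cast
      rfl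
    rw [h3, h4] at h2
    have h5 : (∑' k : ℕ, cc e k * (r ^ 2) ^ k : ℝ) = ((1 + r) ^ e + (1 - r) ^ e) / 2 := by
      exact_mod_cast h2
    rw [← h5]
    exact hsum.sum_le_tsum _ (fun k _ => mul_nonneg (cc_nonneg he he2 k) (by positivity))
  have hlim : ∑ k ∈ Finset.range (n + 1), cc e k * (((1 : ℝ)) ^ 2) ^ k ≤
      ((1 + 1 : ℝ) ^ e + (1 - 1 : ℝ) ^ e) / 2 := by
    have hL : Filter.Tendsto (fun r : ℝ => ∑ k ∈ Finset.range (n + 1), cc e k * (r ^ 2) ^ k)
        (nhdsWithin 1 (Set.Iio 1)) (nhds (∑ k ∈ Finset.range (n + 1), cc e k * ((1 : ℝ) ^ 2) ^ k)) := by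
      apply Filter.Tendsto.mono_left _ nhdsWithin_le_nhds
      apply Continuous.tendsto
      fun_prop
    have hR : Filter.Tendsto (fun r : ℝ => ((1 + r) ^ e + (1 - r) ^ e) / 2)
        (nhdsWithin 1 (Set.Iio 1)) (nhds (((1 + 1 : ℝ) ^ e + (1 - 1 : ℝ) ^ e) / 2)) := by
      apply Filter.Tendsto.mono_left _ nhdsWithin_le_nhds
      apply Filter.Tendsto.div_const
      apply Filter.Tendsto.add
      · have h1 : ContinuousAt (fun x : ℝ => x ^ e) (1 + 1) :=
          Real.continuousAt_rpow_const _ _ (Or.inl (by norm_num))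
        have h2 : Filter.Tendsto (fun r : ℝ => 1 + r) (nhds 1) (nhds (1 + 1)) :=
          (continuous_const.add continuous_id).tendsto 1
        exact h1.tendsto.comp h2
      · have h1 : ContinuousAt (fun x : ℝ => x ^ e) (1 - 1) :=
          Real.continuousAt_rpow_const _ _ (Or.inr (by linarith))
        have h2 : Filter.Tendsto (fun r : ℝ => 1 - r) (nhds 1) (nhds (1 - 1)) :=
          (continuous_const.sub continuous_id).tendsto 1
        exact h1.tendsto.comp h2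
    apply le_of_tendsto_of_tendsto hL hR
    have hm : Set.Ioo (0 : ℝ) 1 ∈ nhdsWithin 1 (Set.Iio 1) :=
      Ioo_mem_nhdsLT (by norm_num)
    filter_upwards [hm] with r hr
    exact key r hr.1 hr.2
  have h6 : ((1 + 1 : ℝ) ^ e + (1 - 1 : ℝ) ^ e) / 2 ≤ e := by
    rw [sub_self, Real.zero_rpow (by linarith), add_zero]
    have h7 : (1 + 1 : ℝ) ^ e = (1 + 1 : ℝ) ^ (e - 1) * (1 + 1) := by
      rw [← Real.rpow_add_one (by norm_num)]
      congr 1
      ring
    have h8 := rpow_one_add_le_one_add_mul_self (s := 1) (p := e - 1) (by norm_num)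
      (by linarith) (by linarith)
    rw [h7]
    generalize (1 + 1 : ℝ) ^ (e - 1) = x at h8 ⊢
    linarith
  have h9 : ∑ k ∈ Finset.range (n + 1), cc e k * (((1 : ℝ)) ^ 2) ^ k =
      ∑ k ∈ Finset.range n, cc e (k + 1) + 1 := by
    rw [Finset.sum_range_succ']
    simp [cc]
  rw [h9] at hlim
  linarith

private theorem ser_sum_tail (he : 1 ≤ e) (he2 : e ≤ 2) :
    Summable (fun k : ℕ => cc e (k + 1)) ∧ ∑' k : ℕ, cc e (k + 1) ≤ e - 1 := by
  have hs : Summable (fun k : ℕ => cc e (k + 1)) :=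
    summable_of_sum_range_le (fun k => cc_nonneg he he2 (k + 1)) (cc_sum he he2)
  exact ⟨hs, hs.tsum_le_of_sum_range_le (cc_sum he he2)⟩

private theorem ser_PP_summable (he : 1 ≤ e) (he2 : e ≤ 2) {t : ℂ} (ht : ‖t‖ < 1) :
    Summable (fun k : ℕ => (cc e k : ℂ) * t ^ k) :=
  ser_summable (cc e) 1 (fun k => by
    rw [abs_of_nonneg (cc_nonneg he he2 k)]
    exact ser_cc_le_one he he2 k) ht

private theorem ser_term_le (he : 1 ≤ e) (he2 : e ≤ 2) {t : ℂ} (ht : ‖t‖ < 1) (k : ℕ) :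
    ‖(cc e (k + 1) : ℂ) * t ^ (k + 1)‖ ≤ cc e (k + 1) * ‖t‖ := by
  rw [norm_mul, norm_pow, Complex.norm_real, Real.norm_of_nonneg (cc_nonneg he he2 _), pow_succ]
  apply mul_le_mul_of_nonneg_left _ (cc_nonneg he he2 _)
  have h1 : ‖t‖ ^ k ≤ 1 := pow_le_one₀ (norm_nonneg _) ht.le
  have h2 := norm_nonneg t
  nlinarith

/-- `‖P - 1‖ ≤ ∑_{k ≥ 1} cc k ‖t‖^k ≤ (e-1) ‖t‖`. -/
theorem norm_PP_sub_one (he : 1 ≤ e) (he2 : e ≤ 2) {t : ℂ} (ht : ‖t‖ < 1) :
    ‖PP e t - 1‖ ≤ (e - 1) * ‖t‖ := by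
  obtain ⟨hs, hle⟩ := ser_sum_tail he he2
  have h1 : PP e t - 1 = ∑' k : ℕ, (cc e (k + 1) : ℂ) * t ^ (k + 1) := by
    unfold PP
    rw [(ser_PP_summable he he2 ht).tsum_eq_zero_add]
    simp [cc]
  rw [h1]
  have h2 : ‖∑' k : ℕ, (cc e (k + 1) : ℂ) * t ^ (k + 1)‖ ≤ ∑' k : ℕ, cc e (k + 1) * ‖t‖ :=
    tsum_of_norm_bounded (hs.mul_right ‖t‖).hasSum (fun k => ser_term_le he he2 ht k)
  rw [tsum_mul_right] at h2
  exact le_trans h2 (mul_le_mul_of_nonneg_right hle (norm_nonneg _))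

/-- `Re P ≥ 1 + cc 1 Re t - ∑_{k ≥ 2} cc k ‖t‖^k`, and `∑_{k ≥ 2} cc k ≤ e - 1 - cc 1`. -/
theorem re_PP (he : 1 ≤ e) (he2 : e ≤ 2) {t : ℂ} (ht : ‖t‖ < 1) :
    1 + cc e 1 * t.re - (e - 1 - cc e 1) ≤ (PP e t).re := by
  obtain ⟨hs, hle⟩ := ser_sum_tail he he2
  have hs2 : Summable (fun k : ℕ => cc e (k + 2)) := (summable_nat_add_iff 1).2 hs
  have hle2 : ∑' k : ℕ, cc e (k + 2) ≤ e - 1 - cc e 1 := by
    rw [hs.tsum_eq_zero_add] at hle
    simp only [zero_add] at hle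
    linarith
  have hS := ser_PP_summable he he2 ht
  have hS1 : Summable (fun k : ℕ => (cc e (k + 1) : ℂ) * t ^ (k + 1)) :=
    (summable_nat_add_iff 1).2 hS
  have h1 : PP e t = 1 + (cc e 1 : ℂ) * t + ∑' k : ℕ, (cc e (k + 2) : ℂ) * t ^ (k + 2) := by
    unfold PP
    rw [hS.tsum_eq_zero_add, hS1.tsum_eq_zero_add]
    simp [cc]
    ring
  have h2 : ‖∑' k : ℕ, (cc e (k + 2) : ℂ) * t ^ (k + 2)‖ ≤ ∑' k : ℕ, cc e (k + 2) := by
    apply tsum_of_norm_bounded hs2.hasSum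
    intro k
    rw [norm_mul, norm_pow, Complex.norm_real, Real.norm_of_nonneg (cc_nonneg he he2 _)]
    have h3 : ‖t‖ ^ (k + 2) ≤ 1 := pow_le_one₀ (norm_nonneg _) ht.le
    have h4 := cc_nonneg he he2 (k + 2)
    nlinarith
  have h3 := Complex.abs_re_le_norm (∑' k : ℕ, (cc e (k + 2) : ℂ) * t ^ (k + 2))
  have h4 := neg_abs_le (∑' k : ℕ, (cc e (k + 2) : ℂ) * t ^ (k + 2)).re
  rw [h1, Complex.add_re, Complex.add_re, Complex.one_re, Complex.re_ofReal_mul]
  linarith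

/-- `K cc K ≤ 6 cc 2/(2K-1) ≤ 2 cc 2` for `K ≥ 2`, geometric series. -/
theorem norm_PP1 (he : 1 ≤ e) (he2 : e ≤ 2) {t : ℂ} (ht : ‖t‖ < 1) :
    ‖PP1 e t‖ ≤ cc e 1 + 2 * cc e 2 * (‖t‖ / (1 - ‖t‖)) := by
  have hS := ser_summable (fun k => ((k : ℝ) + 1) * cc e (k + 1)) 2 (fun k => by
    have h0 := cc_nonneg he he2 (k + 1)
    rw [abs_of_nonneg (by positivity)]
    match k with
    | 0 =>
      have := ser_cc_le_one he he2 1
      simp only [Nat.cast_zero, zero_add, one_mul]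
      linarith
    | k + 1 =>
      have h1 := ser_kcc he he2 k
      have h2 := ser_cc_le_one he he2 2
      push_cast
      have e1 : ((k : ℝ) + 1 + 1) = k + 2 := by ring
      rw [e1]
      change ((k : ℝ) + 2) * cc e (k + 2) ≤ 2
      linarith) ht
  have h1 : PP1 e t = (cc e 1 : ℂ) +
      ∑' k : ℕ, ((((k : ℝ) + 2) * cc e (k + 2) : ℝ) : ℂ) * t ^ (k + 1) := by
    unfold PP1
    rw [hS.tsum_eq_zero_add]
    congr 1
    · simp
    · apply tsum_congr
      intro k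
      congr 2
      push_cast
      ring
  have hg : HasSum (fun k : ℕ => 2 * cc e 2 * ‖t‖ ^ (k + 1)) (2 * cc e 2 * (‖t‖ / (1 - ‖t‖))) := by
    have h2 := (hasSum_geometric_of_lt_one (norm_nonneg t) ht).mul_left (2 * cc e 2 * ‖t‖)
    have e3 : ∀ x : ℝ, x * ‖t‖ * (1 - ‖t‖)⁻¹ = x * (‖t‖ / (1 - ‖t‖)) := fun x => by
      rw [div_eq_mul_inv]
      ring
    rw [e3] at h2
    refine h2.congr_fun (fun k => ?_)
    rw [pow_succ]
    ring
  have h2 : ‖∑' k : ℕ, ((((k : ℝ) + 2) * cc e (k + 2) : ℝ) : ℂ) * t ^ (k + 1)‖ ≤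
      2 * cc e 2 * (‖t‖ / (1 - ‖t‖)) := by
    apply tsum_of_norm_bounded hg
    intro k
    have h0 := cc_nonneg he he2 (k + 2)
    rw [norm_mul, norm_pow, Complex.norm_real, Real.norm_of_nonneg (by positivity)]
    exact mul_le_mul_of_nonneg_right (ser_kcc he he2 k) (by positivity)
  rw [h1]
  refine le_trans (norm_add_le _ _) ?_
  rw [Complex.norm_real, Real.norm_of_nonneg (cc_nonneg he he2 1)]
  linarith

/-- `K (K-1) cc K ≤ 3 cc 2` for `K ≥ 3`, `= 2 cc 2` for `K = 2`, geometric series. -/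
theorem norm_PP2 (he : 1 ≤ e) (he2 : e ≤ 2) {t : ℂ} (ht : ‖t‖ < 1) :
    ‖PP2 e t‖ ≤ 2 * cc e 2 + 3 * cc e 2 * (‖t‖ / (1 - ‖t‖)) := by
  have hS := ser_summable (fun k => ((k : ℝ) + 1) * ((k : ℝ) + 2) * cc e (k + 2)) 3 (fun k => by
    have h0 := cc_nonneg he he2 (k + 2)
    rw [abs_of_nonneg (by positivity)]
    have h1 := ser_kkcc he he2 k
    have h2 := ser_cc_le_one he he2 2
    linarith) ht
  have h1 : PP2 e t = ((2 * cc e 2 : ℝ) : ℂ) +
      ∑' k : ℕ, (((((k + 1 : ℕ) : ℝ) + 1) * (((k + 1 : ℕ) : ℝ) + 2) * cc e (k + 1 + 2) : ℝ) : ℂ) *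
        t ^ (k + 1) := by
    unfold PP2
    rw [hS.tsum_eq_zero_add]
    congr 1
    simp
  have hg : HasSum (fun k : ℕ => 3 * cc e 2 * ‖t‖ ^ (k + 1)) (3 * cc e 2 * (‖t‖ / (1 - ‖t‖))) := by
    have h2 := (hasSum_geometric_of_lt_one (norm_nonneg t) ht).mul_left (3 * cc e 2 * ‖t‖)
    have e3 : ∀ x : ℝ, x * ‖t‖ * (1 - ‖t‖)⁻¹ = x * (‖t‖ / (1 - ‖t‖)) := fun x => by
      rw [div_eq_mul_inv]
      ring
    rw [e3] at h2
    refine h2.congr_fun (fun k => ?_)
    rw [pow_succ]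
    ring
  have h2 : ‖∑' k : ℕ, (((((k + 1 : ℕ) : ℝ) + 1) * (((k + 1 : ℕ) : ℝ) + 2) * cc e (k + 1 + 2) : ℝ) : ℂ) *
        t ^ (k + 1)‖ ≤ 3 * cc e 2 * (‖t‖ / (1 - ‖t‖)) := by
    apply tsum_of_norm_bounded hg
    intro k
    have h0 := cc_nonneg he he2 (k + 1 + 2)
    rw [norm_mul, norm_pow, Complex.norm_real, Real.norm_of_nonneg (by positivity)]
    exact mul_le_mul_of_nonneg_right (ser_kkcc he he2 (k + 1)) (by positivity)
  rw [h1]
  refine le_trans (norm_add_le _ _) ?_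
  have h3 := cc_nonneg he he2 2
  rw [Complex.norm_real, Real.norm_of_nonneg (by positivity)]
  linarith

end Pool.Agent.helper4.EQW
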